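import Pool.Agent.V8H28.PV.Gen
import Pool.Agent.V8H28.PV.Mod
import Pool.Agent.V8H28.PV.Val
import Pool.Agent.V8H28.DV.Div
import Pool.Agent.Y852.FFRed

/-!
Integer points on the coverings `z ^ ℓ = Q(x, y)` of a plane curve.
-/

open Polynomial IntermediateField

set_option autoImplicit false

namespace Pool.Agent.V8H28.TC

open Pool.Agent.H322R2 Pool.Agent.V8H28.DV Pool.Agent.V8H28.PV

theorem cover2 (d D ℓ : ℕ) (hD : 1 ≤ D) (hℓ : 2 ≤ ℓ) :
    ∃ (Cc : ℕ) (cc : IntermediateField ℚ ℝ → ℕ), ∀ F Q : MvPolynomial (Fin 2) ℤ,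
    F.totalDegree = D → Q.totalDegree ≤ d → Q ≠ 0 →
    Irreducible (MvPolynomial.map (Int.castRingHom ℚ) F) →
    ∀ (L : Type) [Field L] [Algebra ℚ L] (π : MvPolynomial (Fin 2) ℚ →ₐ[ℚ] L),
    (∀ w, π w = 0 ↔ MvPolynomial.map (Int.castRingHom ℚ) F ∣ w) →
    (∀ z : L, ∃ w1 w2, π w2 ≠ 0 ∧ π w2 * z = π w1) →
    Irreducible (X ^ ℓ - C (π (MvPolynomial.map (Int.castRingHom ℚ) Q)) : L[X]) →
    ∀ (M : Type) [Field M] [Algebra ℚ M] [Algebra L M] [IsScalarTower ℚ L M] [IsAlgClosed M]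
      (z : M), z ^ ℓ = algebraMap L M (π (MvPolynomial.map (Int.castRingHom ℚ) Q)) →
    ∀ x y z1 : ℤ, MvPolynomial.eval ![x, y] F = 0 → MvPolynomial.eval ![x, y] Q = z1 ^ ℓ →
      (x.natAbs ≤ (Cc * (len F * len Q)) ^ Cc ∧ y.natAbs ≤ (Cc * (len F * len Q)) ^ Cc) ∨
      ∃ (a : MvPolynomial (Fin 2) ℚ) (K : IntermediateField ℚ M) (A : ValuationSubring K),
        Transcendental ℚ (π a) ∧ (∀ l : L, algebraMap L M l ∈ K) ∧ z ∈ K ∧
        (∀ s ∈ K, ∃ p : L[X], p.natDegree < ℓ ∧ aeval z p = s) ∧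
        (∀ A' : ValuationSubring K, (∀ q : ℚ, (q : K) ∈ A') →
          (∀ t : K, (t : M) = algebraMap L M (π a) → t ∉ A') → A' = A) ∧
        ∃ g : ℚ[X], g.Monic ∧ Irreducible g ∧
          Nonempty (IsLocalRing.ResidueField A ≃+* AdjoinRoot g) ∧
          ∃ η : ℝ, aeval η g = 0 ∧ (g.natDegree ≤ 2 ∨
            (x.natAbs ≤ (cc ℚ⟮η⟯ * (len F * len Q)) ^ Cc ∧
              y.natAbs ≤ (cc ℚ⟮η⟯ * (len F * len Q)) ^ Cc)) := by
  choose Km cm hKm using Pool.Agent.Y910.G.main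
  obtain ⟨T0, hT0⟩ : ∃ T0, T0 = D * (D * ℓ) := ⟨_, rfl⟩
  obtain ⟨e, he⟩ : ∃ e, e = D * ℓ + D * (d + D * (ℓ + d)) := ⟨_, rfl⟩
  obtain ⟨Ks, hKs⟩ : ∃ Ks, Ks = (∑ i ∈ Finset.range (e + 1), Km i) + 1 := ⟨_, rfl⟩
  have hKi : ∀ i, i ≤ e → Km i ≤ Ks := by
    intro i hi
    have := Finset.single_le_sum (f := Km) (fun _ _ => Nat.zero_le _)
      (Finset.mem_range.2 (show i < e + 1 by omega))
    omega
  obtain ⟨b, hb⟩ : ∃ b, b = (1 + D) ^ D := ⟨_, rfl⟩
  obtain ⟨b', hb'⟩ : ∃ b', b' = (1 + D) ^ d := ⟨_, rfl⟩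
  have hb1 : 1 ≤ b := by rw [hb]; exact Nat.one_le_pow _ _ (by omega)
  have hb'1 : 1 ≤ b' := by rw [hb']; exact Nat.one_le_pow _ _ (by omega)
  obtain ⟨Mf, hMf⟩ : ∃ Mf : ℕ → ℕ, ∀ E, Mf E = (D * ℓ + 1) * ((D * (d + D * (ℓ + d)) + 1) *
        (2 ^ ((D * (d + D * (ℓ + d)) + 1) * (D * ℓ + 1)) *
          (((D * (d + D * (ℓ + d)) + 1) * (D * ℓ + 1) + 1) *
          (D.factorial * ((2 ^ ℓ + T0 ^ ℓ * ((E * b) ^ ((ℓ - 1) * d) * ((E * b) ^ d * (E * b')))) *
            (1 + (E * b) ^ D) ^ (ℓ + d)) ^ D)))) :=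
    ⟨_, fun E => rfl⟩
  have hnum : ∃ C : ℕ, ∀ E : ℕ, 1 ≤ E → (1 + D) * ((E * b) ^ D * (Ks * Mf E) ^ Ks)
      ≤ (C * E) ^ C := by
    have h2 : PB (fun E => E * b) := PB.id.mul (PB.const b)
    have h2' : PB (fun E => E * b') := PB.id.mul (PB.const b')
    have h3 : PB (fun E => (E * b) ^ D) := h2.pow D
    have h5 : PB (fun E => 1 + (E * b) ^ D) := by
      refine ((PB.const 2).mul h3).mono ?_
      intro E hE
      have : 1 ≤ (E * b) ^ D := Nat.one_le_pow _ _ (Nat.mul_pos hE hb1)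
      show 1 + (E * b) ^ D ≤ 2 * (E * b) ^ D
      omega
    have h6 : PB (fun E => 2 ^ ℓ + T0 ^ ℓ *
        ((E * b) ^ ((ℓ - 1) * d) * ((E * b) ^ d * (E * b')))) := by
      have h7 := ((PB.const (2 ^ ℓ + T0 ^ ℓ)).mul ((h2.pow ((ℓ - 1) * d)).mul
        ((h2.pow d).mul h2')))
      refine h7.mono ?_
      intro E hE
      have h8 : 1 ≤ (E * b) ^ ((ℓ - 1) * d) * ((E * b) ^ d * (E * b')) :=
        Nat.mul_pos (Nat.one_le_pow _ _ (Nat.mul_pos hE hb1))
          (Nat.mul_pos (Nat.one_le_pow _ _ (Nat.mul_pos hE hb1)) (Nat.mul_pos hE hb'1))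
      show 2 ^ ℓ + T0 ^ ℓ * ((E * b) ^ ((ℓ - 1) * d) * ((E * b) ^ d * (E * b')))
        ≤ (2 ^ ℓ + T0 ^ ℓ) * ((E * b) ^ ((ℓ - 1) * d) * ((E * b) ^ d * (E * b')))
      rw [Nat.add_mul]
      exact Nat.add_le_add_right (Nat.le_mul_of_pos_right _ h8) _
    have h8 : PB Mf := by
      have h9 : PB (fun E => (D * ℓ + 1) * ((D * (d + D * (ℓ + d)) + 1) *
        (2 ^ ((D * (d + D * (ℓ + d)) + 1) * (D * ℓ + 1)) *
          (((D * (d + D * (ℓ + d)) + 1) * (D * ℓ + 1) + 1) *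
          (D.factorial * ((2 ^ ℓ + T0 ^ ℓ * ((E * b) ^ ((ℓ - 1) * d) * ((E * b) ^ d * (E * b')))) *
            (1 + (E * b) ^ D) ^ (ℓ + d)) ^ D))))) :=
        (PB.const _).mul ((PB.const _).mul ((PB.const _).mul ((PB.const _).mul
          ((PB.const _).mul ((h6.mul (h5.pow (ℓ + d))).pow D)))))
      exact h9.mono fun E _ => (hMf E).le
    exact (PB.const _).mul (h3.mul (((PB.const Ks).mul h8).pow Ks))
  obtain ⟨Cf0, hCf0⟩ := hnum
  obtain ⟨Cf, hCf1⟩ : ∃ Cf, Cf = Cf0 + 1 := ⟨_, rfl⟩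
  have hCf : ∀ E : ℕ, 1 ≤ E → (1 + D) * ((E * b) ^ D * (Ks * Mf E) ^ Ks) ≤ (Cf * E) ^ Cf :=
    fun E hE => (hCf0 E hE).trans (pb_mono (by omega) hE)
  refine ⟨Cf, fun I => (∑ i ∈ Finset.range (e + 1), (cm i I + 1)) ^ Ks * Cf, ?_⟩
  intro F Q hFD hQd hQ0 hirr L _ _ π hker hsurj hirrQ M _ _ _ _ _ z hz x y z1 hF hQ
  have hchL : CharZero L := algebraRat.charZero L
  have hchM : CharZero M := algebraRat.charZero M
  have hF0 : F ≠ 0 := by
    rintro rfl
    rw [map_zero] at hirr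
    exact hirr.ne_zero rfl
  have hlF := len_pos' hF0
  have hlQ := len_pos' hQ0
  obtain ⟨E, hE⟩ : ∃ E, E = len F * len Q := ⟨_, rfl⟩
  have hE1 : 1 ≤ E := by
    rw [hE]; exact Nat.mul_pos hlF hlQ
  have hFE : len F ≤ E := by
    rw [hE]; exact Nat.le_mul_of_pos_right _ hlQ
  have hQE : len Q ≤ E := by
    rw [hE]; exact Nat.le_mul_of_pos_left _ hlF
  rw [← hE]
  obtain ⟨u, hu, hcu⟩ := exists_u F hF0
  have hcl : lc F u ≠ 0 := hcu
  have hFd1 : 1 ≤ F.totalDegree := by omega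
  have huD : (u : ℝ) ≤ D := by rw [← hFD]; exact_mod_cast hu
  -- sizes
  have hEb : (1 : ℝ) ≤ (E : ℝ) * b := by
    exact_mod_cast Nat.mul_pos hE1 hb1
  have hpn2 : pn (pn zn) (F2 F u) ≤ (E : ℝ) * b := by
    refine (pn_toB_le u F).trans ?_
    rw [hFD, hb]
    push_cast
    apply mul_le_mul (by exact_mod_cast hFE) _ (by positivity) (by positivity)
    apply pow_le_pow_left₀ (by positivity)
    linarith
  have hpnG : pn (pn zn) (GG F u) ≤ ((E : ℝ) * b) ^ D := by
    rw [← hFD]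
    exact pn_GG hcl hEb hpn2 hFd1
  have hlcB : |((lc F u : ℤ) : ℝ)| ≤ (E : ℝ) * b := by
    refine le_trans ?_ hpn2
    have h1 := coeff_le_pn (pn zn) (F2 F u) F.totalDegree
    rw [F2_coeff hcl, pn_C] at h1
    exact h1
  obtain ⟨ρ, hρ⟩ : ∃ ρ : ℤ[X][X], ρ = C (C ((lc F u) ^ ((ℓ - 1) * d))) *
    tl (lc F u) d (toB ℤ (shE ℤ u Q)) := ⟨_, rfl⟩
  have hρn : pn (pn zn) ρ ≤ (((E * b) ^ ((ℓ - 1) * d) * ((E * b) ^ d * (E * b')) : ℕ) : ℝ) := by
    rw [hρ]
    refine (map_mul_le_mul _ _ _).trans ?_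
    rw [pn_C, pn_C, zn_apply]
    push_cast
    rw [abs_pow]
    apply mul_le_mul (pow_le_pow_left₀ (abs_nonneg _) hlcB _) _ (apply_nonneg _ _) (by positivity)
    refine (pn_tl _ _ _ _ hEb hlcB).trans ?_
    apply mul_le_mul_of_nonneg_left _ (by positivity)
    refine (pn_toB_le u Q).trans ?_
    apply mul_le_mul (by exact_mod_cast hQE) _ (by positivity) (by positivity)
    rw [hb']
    push_cast
    calc (1 + (u : ℝ)) ^ Q.totalDegree ≤ (1 + (D : ℝ)) ^ Q.totalDegree := by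
          apply pow_le_pow_left₀ (by positivity)
          linarith
      _ ≤ (1 + (D : ℝ)) ^ d := by
          apply pow_le_pow_right₀ _ hQd
          have : (0 : ℝ) ≤ D := by positivity
          linarith
  have hρK : ρ.natDegree ≤ d := by
    rw [hρ]
    exact (natDegree_C_mul_le _ _).trans (natDegree_tl _ _ _)
  have hρm : ∀ j, (ρ.coeff j).natDegree ≤ d := by
    intro j
    rw [hρ, coeff_C_mul]
    refine (natDegree_C_mul_le _ _).trans ?_
    exact inner_tl _ _ _ _ (fun j => ((TD_toB (u : ℤ) Q).2 j).trans (by omega)) j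
  have hρev : ∀ {S : Type} [CommRing S] (x y : S), ev (y - u * x) (((lc F u : ℤ) : S) * x) ρ
      = ((lc F u : ℤ) : S) ^ (d * ℓ) * MvPolynomial.aeval ![x, y] Q := by
    intro S _ x y
    rw [hρ, map_mul, ev_tl (lc F u) d (toB ℤ (shE ℤ u Q)) ((TD_toB (u : ℤ) Q).1.trans hQd), ev_sh,
      ev_C, evf_C]
    have h1 : d * ℓ = (ℓ - 1) * d + d := by
      obtain ⟨k, rfl⟩ : ∃ k, ℓ = k + 1 := ⟨ℓ - 1, by omega⟩
      simp
      ring
    rw [h1, pow_add]
    push_cast
    ring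
  -- the function field
  obtain ⟨α, hα⟩ : ∃ α : L, α = π (MvPolynomial.X 1) - (u : L) * π (MvPolynomial.X 0) := ⟨_, rfl⟩
  obtain ⟨β, hβ⟩ : ∃ β : L, β = ((lc F u : ℤ) : L) * π (MvPolynomial.X 0) := ⟨_, rfl⟩
  obtain ⟨hev, htr, hgen, hpl⟩ := Y852.FFRed.ff_reduce F hirr u hcl hFd1 π hker hsurj α β hα hβ
  have hπ : ∀ W : MvPolynomial (Fin 2) ℤ, π (MvPolynomial.map (Int.castRingHom ℚ) W)
      = MvPolynomial.aeval ![π (MvPolynomial.X 0), π (MvPolynomial.X 1)] W := by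
    intro W
    have h1 : (π : MvPolynomial (Fin 2) ℚ →+* L).comp (MvPolynomial.map (Int.castRingHom ℚ))
        = (MvPolynomial.aeval ![π (MvPolynomial.X 0), π (MvPolynomial.X 1)] :
          MvPolynomial (Fin 2) ℤ →ₐ[ℤ] L).toRingHom := by
      apply MvPolynomial.ringHom_ext
      · intro r
        simp
      · intro i
        fin_cases i
        · simp
        · simp
    exact congrArg (fun g : MvPolynomial (Fin 2) ℤ →+* L => g W) h1
  have hρL : ev α β ρ = ((lc F u : ℤ) : L) ^ (d * ℓ) * π (MvPolynomial.map (Int.castRingHom ℚ) Q) := by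
    rw [hα, hβ, hρev, hπ]
  obtain ⟨c, hc⟩ : ∃ c : L, c = ((lc F u : ℤ) : L) ^ d := ⟨_, rfl⟩
  have hc0 : c ≠ 0 := by
    rw [hc]
    apply pow_ne_zero
    exact_mod_cast hcl
  obtain ⟨aM, haM⟩ : ∃ aM : M, aM = algebraMap L M α := ⟨_, rfl⟩
  obtain ⟨bM, hbM⟩ : ∃ bM : M, bM = algebraMap L M β := ⟨_, rfl⟩
  obtain ⟨zt, hzt⟩ : ∃ zt : M, zt = algebraMap L M c * z := ⟨_, rfl⟩
  have hevM : ∀ W, ev aM bM W = algebraMap L M (ev α β W) := by
    intro W
    rw [map_ev, haM, hbM]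
  have htrM : Transcendental ℚ aM := by
    rw [haM]
    exact (transcendental_algebraMap_iff (algebraMap L M).injective).2 htr
  have hGm := GG_monic hcl
  have hGd : (GG F u).natDegree = D := by rw [GG_natDegree hcl, hFD]
  have hGp := GG_prime hcl hFd1 hirr
  have hGM0 : ev aM bM (GG F u) = 0 := by rw [hevM, hev, map_zero]
  have hkerM : ∀ W : ℤ[X][X], ev aM bM W = 0 ↔ GG F u ∣ W :=
    ker_monic aM bM htrM (GG F u) hGp hGm (by omega) hGM0
  have hztl : zt ^ ℓ = ev aM bM ρ := by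
    rw [hzt, mul_pow, hz, hevM, hρL, ← map_pow, ← map_mul, hc, ← pow_mul]
  have hαp : ∀ p : ℤ[X], p ≠ 0 → evf aM p ≠ 0 := evf_ne_zero aM htrM
  have hGdi : ∀ j, ((GG F u).coeff j).natDegree ≤ D := fun j => by
    rw [← hFD]; exact ((GG_TD hcl).2 j).trans (Nat.sub_le _ _)
  -- the primitive element
  obtain ⟨G0, hG0p, hG01, hG02, -, -, hG05, -⟩ := modelPow (GG F u) ρ D D d d ((E * b) ^ D)
    ((E * b) ^ ((ℓ - 1) * d) * ((E * b) ^ d * (E * b'))) ℓ 1 0 (by norm_num) (by omega) hGm hGd hD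
    hGp hGdi hρK hρm (by push_cast; exact hpnG) hρn aM bM zt hkerM hztl hαp
  have hG05' : ev aM zt G0 = 0 := by simpa using hG05
  obtain ⟨T, hT, hzT⟩ := exists_T aM bM zt htrM (GG F u) G0 hGm hGM0 hG0p.ne_zero hG05' D (D * ℓ)
    hGd.le hG02
  rw [← hT0] at hT
  obtain ⟨G, hGpr, hG1, hG2, hG3, hG4, hG5, hG6⟩ := modelPow (GG F u) ρ D D d d ((E * b) ^ D)
    ((E * b) ^ ((ℓ - 1) * d) * ((E * b) ^ d * (E * b'))) ℓ T 1 (by norm_num) (by omega) hGm hGd hD
    hGp hGdi hρK hρm (by push_cast; exact hpnG) hρn aM bM zt hkerM hztl hαp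
  obtain ⟨ω, hω⟩ : ∃ ω : M, ω = bM + T * zt := ⟨_, rfl⟩
  have hG5' : ev aM ω G = 0 := by
    rw [hω]
    simpa using hG5
  rw [← hω] at hzT
  -- linear independence of the powers of the root
  have hind : ∀ r : ℤ[X][X][X], r.natDegree < ℓ → eval₂ (ev aM bM) zt r = 0 →
      ∀ i, ev aM bM (r.coeff i) = 0 := by
    intro r hr h0 i
    obtain ⟨s, hs⟩ : ∃ s : L[X], s = (r.map (ev α β)).comp (C c * X) := ⟨_, rfl⟩
    have hsz : aeval z s = 0 := by
      rw [hs, aeval_comp, map_mul, aeval_C, aeval_X, ← hzt, aeval_def, eval₂_map, ← h0]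
      congr 1
      refine RingHom.ext fun W => ?_
      rw [RingHom.comp_apply, hevM]
    have hsd : s.natDegree < ℓ := by
      rw [hs]
      refine (natDegree_comp_le).trans_lt ?_
      have h1 : (C c * X : L[X]).natDegree ≤ 1 := (natDegree_C_mul_le _ _).trans natDegree_X_le
      have h2 : (r.map (ev α β)).natDegree ≤ r.natDegree := natDegree_map_le
      calc (r.map (ev α β)).natDegree * (C c * X : L[X]).natDegree
          ≤ r.natDegree * 1 := Nat.mul_le_mul h2 h1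
        _ < ℓ := by omega
    have hmin : minpoly L z = X ^ ℓ - C (π (MvPolynomial.map (Int.castRingHom ℚ) Q)) := by
      symm
      apply minpoly.eq_of_irreducible_of_monic hirrQ
      · rw [map_sub, map_pow, aeval_X, aeval_C, hz, sub_self]
      · exact monic_X_pow_sub_C _ (by omega)
    have hs0 : s = 0 := by
      by_contra hne
      have h1 := natDegree_le_of_dvd (minpoly.dvd L z hsz) hne
      rw [hmin, natDegree_X_pow_sub_C] at h1
      omega
    have h1 : s.coeff i = 0 := by rw [hs0, coeff_zero]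
    rw [hs, comp_C_mul_X_coeff, coeff_map] at h1
    rw [hevM]
    rcases mul_eq_zero.1 h1 with h2 | h2
    · rw [h2, map_zero]
    · exact absurd h2 (pow_ne_zero _ hc0)
  -- the integer point
  have hzpt : ev (y - u * x) ((lc F u : ℤ) * x) (GG F u) = 0 := by
    have h1 := ev_GG' (S := ℤ) hcl hFd1 (y - u * x) x
    simp only [Int.cast_id] at h1
    rw [h1, F2, ev_sh, aeval_int, hF, mul_zero]
  have hρpt : ((lc F u) ^ d * z1) ^ ℓ = ev (y - u * x) ((lc F u : ℤ) * x) ρ := by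
    have h1 := hρev (S := ℤ) x y
    simp only [Int.cast_id] at h1
    rw [h1, aeval_int, hQ, mul_pow, ← pow_mul]
  have hGk := hG6 hind (y - u * x) ((lc F u : ℤ) * x) ((lc F u) ^ d * z1) hzpt hρpt
  obtain ⟨k, hk⟩ : ∃ k : ℤ, k = ((1 : ℤ) : ℤ) * ((lc F u : ℤ) * x) + (T : ℤ) * ((lc F u) ^ d * z1) :=
    ⟨_, rfl⟩
  have hGk' : ev (y - u * x) k G = 0 := by
    rw [hk]
    simpa using hGk
  -- the field of the new curve
  obtain ⟨K, hK⟩ : ∃ K : IntermediateField ℚ M, K = IntermediateField.adjoin ℚ {aM, ω} :=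
    ⟨_, rfl⟩
  have haK : aM ∈ K := by rw [hK]; exact IntermediateField.subset_adjoin _ _ (by simp)
  have hωK : ω ∈ K := by rw [hK]; exact IntermediateField.subset_adjoin _ _ (by simp)
  have hztK : zt ∈ K := by rw [hK, hω]; rw [hω] at hzT; exact hzT
  have hbK : bM ∈ K := by
    have h1 : bM = ω - T * zt := by rw [hω]; ring
    rw [h1]
    exact sub_mem hωK (mul_mem (_root_.natCast_mem K T) hztK)
  have hlcL : ((lc F u : ℤ) : L) ≠ 0 := by exact_mod_cast hcl
  have hxL : π (MvPolynomial.X 0) = ((lc F u : ℤ) : L)⁻¹ * β := by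
    rw [hβ]; field_simp
  have hyL : π (MvPolynomial.X 1) = α + u * π (MvPolynomial.X 0) := by
    rw [hα]; ring
  have hxK : algebraMap L M (π (MvPolynomial.X 0)) ∈ K := by
    rw [hxL, map_mul, map_inv₀, map_intCast, ← hbM]
    exact mul_mem (inv_mem (_root_.intCast_mem K _)) hbK
  have hyK : algebraMap L M (π (MvPolynomial.X 1)) ∈ K := by
    rw [hyL, map_add, map_mul, map_natCast, ← haM]
    exact add_mem haK (mul_mem (_root_.natCast_mem K _) hxK)
  have hπK : ∀ w, algebraMap L M (π w) ∈ K := by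
    intro w
    induction w using MvPolynomial.induction_on with
    | C q =>
      have h1 : π (MvPolynomial.C q) = algebraMap ℚ L q := by
        rw [← MvPolynomial.algebraMap_eq, π.commutes]
      rw [h1, ← IsScalarTower.algebraMap_apply]
      exact IntermediateField.algebraMap_mem K q
    | add p q hp hq => rw [map_add, map_add]; exact add_mem hp hq
    | mul_X p i hp =>
      rw [map_mul, map_mul]
      refine mul_mem hp ?_
      fin_cases i
      · exact hxK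
      · exact hyK
  have hLK : ∀ l : L, algebraMap L M l ∈ K := by
    intro l
    obtain ⟨w1, w2, h2, h3⟩ := hsurj l
    have h4 : l = π w1 / π w2 := by
      rw [← h3]; field_simp
    rw [h4, map_div₀]
    exact div_mem (hπK _) (hπK _)
  have hzK : z ∈ K := by
    have h1 : z = (algebraMap L M c)⁻¹ * zt := by
      rw [hzt]
      have : algebraMap L M c ≠ 0 := by
        rw [Ne, map_eq_zero_iff _ (algebraMap L M).injective]; exact hc0
      field_simp
    rw [h1]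
    exact mul_mem (inv_mem (hLK c)) hztK
  obtain ⟨aK, haK'⟩ : ∃ aK : K, (aK : M) = aM := ⟨⟨aM, haK⟩, rfl⟩
  obtain ⟨wK, hwK'⟩ : ∃ wK : K, (wK : M) = ω := ⟨⟨ω, hωK⟩, rfl⟩
  obtain ⟨πK, hπK'⟩ : ∃ πK : MvPolynomial (Fin 2) ℚ →ₐ[ℚ] K,
      πK = MvPolynomial.aeval ![wK, aK] := ⟨_, rfl⟩
  have hπKc : ∀ w, ((πK w : K) : M) = MvPolynomial.aeval ![ω, aM] w := by
    intro w
    have h1 : (algebraMap K M).comp (πK : MvPolynomial (Fin 2) ℚ →+* K)
        = (MvPolynomial.aeval ![ω, aM] : MvPolynomial (Fin 2) ℚ →ₐ[ℚ] M).toRingHom := by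
      apply MvPolynomial.ringHom_ext
      · intro r
        have h2 : πK (MvPolynomial.C r) = (r : K) := by
          rw [← MvPolynomial.algebraMap_eq, πK.commutes, eq_ratCast]
        show algebraMap K M (πK (MvPolynomial.C r)) = _
        rw [h2, map_ratCast]
        simp
      · intro i
        show algebraMap K M (πK (MvPolynomial.X i)) = _
        fin_cases i
        · simp [hπK', ← hwK']
        · simp [hπK', ← haK']
    exact congrArg (fun g : MvPolynomial (Fin 2) ℚ →+* M => g w) h1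
  have hkerK : ∀ w, πK w = 0 ↔ MvPolynomial.map (Int.castRingHom ℚ) ((toB ℤ).symm G) ∣ w := by
    intro w
    rw [← ker_gen aM ω htrM G hGpr hG1 hG5' w, ← hπKc]
    simp
  have hsurjK : ∀ t : K, ∃ w1 w2, πK w2 ≠ 0 ∧ πK w2 * t = πK w1 := by
    intro t
    have ht : (t : M) ∈ IntermediateField.adjoin ℚ {aM, ω} := by rw [← hK]; exact t.2
    obtain ⟨w1, w2, h2, h3⟩ := frac_gen aM ω (t : M) ht
    refine ⟨w1, w2, ?_, ?_⟩
    · intro h
      apply h2
      rw [← hπKc, h]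
      simp
    · apply Subtype.ext
      rw [← hπKc, ← hπKc] at h3
      exact h3
  -- sizes of the new curve
  obtain ⟨Mn, hMn⟩ : ∃ Mn : ℕ, Mn = Mf E := ⟨_, rfl⟩
  have hG4' : pn (pn zn) G ≤ (Mn : ℝ) := by
    refine hG4.trans ?_
    rw [hMn, hMf]
    have h1 : (2 ^ ℓ + T ^ ℓ * ((E * b) ^ ((ℓ - 1) * d) * ((E * b) ^ d * (E * b'))))
        ≤ (2 ^ ℓ + T0 ^ ℓ * ((E * b) ^ ((ℓ - 1) * d) * ((E * b) ^ d * (E * b')))) :=
      Nat.add_le_add_left (Nat.mul_le_mul_right _ (Nat.pow_le_pow_left hT _)) _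
    exact_mod_cast Nat.mul_le_mul_left _ (Nat.mul_le_mul_left _ (Nat.mul_le_mul_left _
      (Nat.mul_le_mul_left _ (Nat.mul_le_mul_left _ (Nat.pow_le_pow_left
        (Nat.mul_le_mul_right _ h1) _)))))
  have hCE := hCf E hE1
  rw [← hMn] at hCE
  have hG0ne : (toB ℤ).symm G ≠ 0 := by
    intro h
    apply hGpr.ne_zero
    have h1 := congrArg (toB ℤ) h
    rwa [AlgEquiv.apply_symm_apply, map_zero] at h1
  have hlenG : len ((toB ℤ).symm G) ≤ Mn := by
    have h1 := (len_symm G).trans hG4'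
    exact_mod_cast h1
  have hlen1 : 1 ≤ len ((toB ℤ).symm G) := len_pos' hG0ne
  have htd : ((toB ℤ).symm G).totalDegree ≤ e := by
    rw [he]
    exact totalDegree_symm G (D * ℓ) (D * (d + D * (ℓ + d))) hG2 hG3
  have hmain := hKm _ ((toB ℤ).symm G) rfl (irr_of_prime G hGpr hG1) K πK hkerK hsurjK k
    (y - u * x) (by rw [eval_symm]; exact hGk')
  -- from the new coordinate to the old ones
  have hTR : (1 : ℝ) ≤ ((E : ℝ) * b) ^ D := one_le_pow₀ hEb
  have hM1 : 1 ≤ Mn := hlen1.trans hlenG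
  have hKs1 : 1 ≤ Ks := by omega
  have hcoord : ∀ Ab : ℕ, 1 ≤ Ab → (y - u * x).natAbs ≤ Ab →
      x.natAbs ≤ (1 + D) * ((E * b) ^ D * Ab) ∧ y.natAbs ≤ (1 + D) * ((E * b) ^ D * Ab) := by
    intro Ab hA1 hakA
    have hbb := abs_b_le (GG_monic hcl) (GG_natDegree hcl) (GG_TD hcl) hTR hpnG (y - u * x)
      ((lc F u : ℤ) * x) hzpt
    have hlc1 : 1 ≤ |((lc F u : ℤ) : ℝ)| := by
      have : 1 ≤ |lc F u| := Int.one_le_abs hcl
      exact_mod_cast this
    have haR : |((y - u * x : ℤ) : ℝ)| ≤ Ab := by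
      rw [← Int.cast_abs, ← Int.natCast_natAbs, Int.cast_natCast]
      exact_mod_cast hakA
    have hAR : (1 : ℝ) ≤ Ab := by exact_mod_cast hA1
    have hx : |(x : ℝ)| ≤ ((E : ℝ) * b) ^ D * Ab := by
      have h1 : |(x : ℝ)| ≤ |(((lc F u : ℤ) * x : ℤ) : ℝ)| := by
        push_cast
        rw [abs_mul]
        exact le_mul_of_one_le_left (abs_nonneg _) hlc1
      refine h1.trans (hbb.trans ?_)
      exact mul_le_mul_of_nonneg_left (max_le hAR haR) (by positivity)
    have hy : |(y : ℝ)| ≤ (1 + D) * (((E : ℝ) * b) ^ D * Ab) := by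
      have h1 : (y : ℝ) = ((y - u * x : ℤ) : ℝ) + u * x := by push_cast; ring
      rw [h1]
      refine (abs_add_le _ _).trans ?_
      rw [abs_mul, Nat.abs_cast]
      have h3 : (u : ℝ) * |(x : ℝ)| ≤ D * (((E : ℝ) * b) ^ D * Ab) :=
        mul_le_mul huD hx (abs_nonneg _) (by positivity)
      have h4 : (Ab : ℝ) ≤ ((E : ℝ) * b) ^ D * Ab := le_mul_of_one_le_left (by linarith) hTR
      linarith
    have hx' : |(x : ℝ)| ≤ (1 + D) * (((E : ℝ) * b) ^ D * Ab) := by
      refine hx.trans ?_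
      apply le_mul_of_one_le_left (by positivity)
      have : (0 : ℝ) ≤ D := by positivity
      linarith
    constructor
    · have h1 : (x.natAbs : ℝ) ≤ (((1 + D) * ((E * b) ^ D * Ab) : ℕ) : ℝ) := by
        rw [Nat.cast_natAbs, Int.cast_abs]; push_cast; exact hx'
      exact (by exact_mod_cast h1 : x.natAbs ≤ (1 + D) * ((E * b) ^ D * Ab))
    · have h1 : (y.natAbs : ℝ) ≤ (((1 + D) * ((E * b) ^ D * Ab) : ℕ) : ℝ) := by
        rw [Nat.cast_natAbs, Int.cast_abs]; push_cast; exact hy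
      exact (by exact_mod_cast h1 : y.natAbs ≤ (1 + D) * ((E * b) ^ D * Ab))
  rcases hmain with ⟨-, hak⟩ | ⟨A, hA, g, hg1, hg2, hres, η, hη, hbd⟩
  · left
    have hA1 : 1 ≤ (Ks * Mn) ^ Ks := Nat.one_le_pow _ _ (Nat.mul_pos hKs1 hM1)
    have hakA : (y - u * x).natAbs ≤ (Ks * Mn) ^ Ks := by
      refine hak.trans ?_
      have h1 := hKi _ htd
      refine (Nat.pow_le_pow_left (Nat.mul_le_mul h1 hlenG) _).trans ?_
      exact Nat.pow_le_pow_right (Nat.mul_pos hKs1 hM1) h1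
    have h2 := hcoord _ hA1 hakA
    exact ⟨h2.1.trans hCE, h2.2.trans hCE⟩
  · right
    have hαw : π (MvPolynomial.X 1 - MvPolynomial.C (u : ℚ) * MvPolynomial.X 0) = α := by
      rw [map_sub, map_mul, hα]
      congr 2
      have := π.commutes (u : ℚ)
      rw [MvPolynomial.algebraMap_eq] at this
      rw [this]; simp
    have hX1 : ∀ t : K, (t : M) = algebraMap L M
        (π (MvPolynomial.X 1 - MvPolynomial.C (u : ℚ) * MvPolynomial.X 0)) →
        t = πK (MvPolynomial.X 1) := by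
      intro t ht
      apply Subtype.ext
      rw [hπKc, ht, hαw]
      simp [haM]
    have hAinf := (hA A).2 rfl
    have hpolyK : ∀ s ∈ K, ∃ p : L[X], p.natDegree < ℓ ∧ aeval z p = s := by
      intro s hs
      have hzint : IsIntegral L z := by
        refine ⟨X ^ ℓ - C (π (MvPolynomial.map (Int.castRingHom ℚ) Q)),
          monic_X_pow_sub_C _ (by omega), ?_⟩
        rw [eval₂_sub, eval₂_X_pow, eval₂_C, hz, sub_self]
      have hmin : minpoly L z = X ^ ℓ - C (π (MvPolynomial.map (Int.castRingHom ℚ) Q)) := by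
        symm
        apply minpoly.eq_of_irreducible_of_monic hirrQ
        · rw [map_sub, map_pow, aeval_X, aeval_C, hz, sub_self]
        · exact monic_X_pow_sub_C _ (by omega)
      have hKz : K ≤ (IntermediateField.adjoin L {z}).restrictScalars ℚ := by
        rw [hK, IntermediateField.adjoin_le_iff]
        rintro w hw
        have hzz : z ∈ IntermediateField.adjoin L {z} := IntermediateField.mem_adjoin_simple_self L z
        rcases hw with rfl | hw
        · show _ ∈ IntermediateField.adjoin L {z}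
          rw [haM]
          exact IntermediateField.algebraMap_mem _ _
        · rw [Set.mem_singleton_iff] at hw
          subst hw
          show _ ∈ IntermediateField.adjoin L {z}
          rw [hω, hbM, hzt]
          exact add_mem (IntermediateField.algebraMap_mem _ _)
            (mul_mem (_root_.natCast_mem _ T) (mul_mem (IntermediateField.algebraMap_mem _ _) hzz))
      have h1 : s ∈ IntermediateField.adjoin L {z} := hKz hs
      have h2 : s ∈ Algebra.adjoin L {z} := by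
        rw [← IntermediateField.adjoin_simple_toSubalgebra_of_isAlgebraic hzint.isAlgebraic]
        exact h1
      rw [Algebra.adjoin_singleton_eq_range_aeval] at h2
      obtain ⟨p, hp⟩ := h2
      refine ⟨p %ₘ minpoly L z, ?_, ?_⟩
      · have h3 : (minpoly L z).natDegree = ℓ := by rw [hmin, natDegree_X_pow_sub_C]
        rw [← h3]
        apply natDegree_modByMonic_lt _ (minpoly.monic hzint)
        exact minpoly.ne_one L z
      · rw [← hp]
        have h3 := modByMonic_add_div p (minpoly L z)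
        conv_rhs => rw [← h3]
        simp
    refine ⟨MvPolynomial.X 1 - MvPolynomial.C (u : ℚ) * MvPolynomial.X 0, K, A, by
      rw [hαw]; exact htr, hLK, hzK, hpolyK, ?_, g, hg1, hg2, hres, η, hη, ?_⟩
    · intro A' hA'1 hA'2
      rw [← hA A']
      refine ⟨fun q => by rw [eq_ratCast]; exact hA'1 q, ?_⟩
      rintro ⟨-, h2⟩
      apply hA'2 _ _ h2
      rw [hπKc, hαw]
      simp [haM]
    · rcases hbd with h | ⟨-, hak⟩
      · exact Or.inl h
      · right
        obtain ⟨cS, hcS⟩ : ∃ cS, cS = ∑ i ∈ Finset.range (e + 1), (cm i ℚ⟮η⟯ + 1) := ⟨_, rfl⟩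
        have hcSi : cm ((toB ℤ).symm G).totalDegree ℚ⟮η⟯ ≤ cS := by
          have h1 := Finset.single_le_sum (f := fun i => cm i ℚ⟮η⟯ + 1) (fun _ _ => Nat.zero_le _)
            (Finset.mem_range.2 (show ((toB ℤ).symm G).totalDegree < e + 1 by omega))
          rw [← hcS] at h1
          omega
        have hcS1 : 1 ≤ cS := by
          rw [hcS]
          have h1 := Finset.single_le_sum (f := fun i => cm i ℚ⟮η⟯ + 1) (fun _ _ => Nat.zero_le _)
            (Finset.mem_range.2 (show 0 < e + 1 by omega))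
          omega
        have hA1 : 1 ≤ (cS * (Ks * Mn)) ^ Ks :=
          Nat.one_le_pow _ _ (Nat.mul_pos hcS1 (Nat.mul_pos hKs1 hM1))
        have hakA : (y - u * x).natAbs ≤ (cS * (Ks * Mn)) ^ Ks := by
          refine hak.trans ?_
          have h1 := hKi _ htd
          refine (Nat.pow_le_pow_left (Nat.mul_le_mul hcSi (hlenG.trans
            (Nat.le_mul_of_pos_left _ hKs1))) _).trans ?_
          exact Nat.pow_le_pow_right (Nat.mul_pos hcS1 (Nat.mul_pos hKs1 hM1)) h1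
        have h2 := hcoord _ hA1 hakA
        have h3 : (1 + D) * ((E * b) ^ D * (cS * (Ks * Mn)) ^ Ks) ≤ (cS ^ Ks * Cf * E) ^ Cf := by
          have h4 : (1 + D) * ((E * b) ^ D * (cS * (Ks * Mn)) ^ Ks)
              = cS ^ Ks * ((1 + D) * ((E * b) ^ D * (Ks * Mn) ^ Ks)) := by
            rw [mul_pow cS]; ring
          rw [h4, mul_assoc (cS ^ Ks), mul_pow (cS ^ Ks)]
          apply Nat.mul_le_mul _ hCE
          apply Nat.le_self_pow
          omega
        rw [hcS] at h2 h3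
        exact ⟨h2.1.trans h3, h2.2.trans h3⟩

end Pool.Agent.V8H28.TC
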