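import Pool.Agent.V8H28.PV.Final

/-!
Irreducibility of `X ^ n - c q` when `q` is a power at a rational place.
-/

open Polynomial IntermediateField

set_option autoImplicit false

namespace Pool.Agent.V8H28.TC

open Pool.Agent.V8H28.PV

lemma irr4 {K : Type*} [Field K] [CharZero K] (a : K) (h1 : ∀ w : K, w ^ 2 ≠ a)
    (h4 : ∀ w : K, -4 * w ^ 4 ≠ a) : Irreducible (X ^ 4 - C a : K[X]) := by
  have key : Irreducible (X ^ (2 * 2) - C a : K[X]) := by
    apply X_pow_mul_sub_C_irreducible (X_pow_sub_C_irreducible_of_prime Nat.prime_two h1)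
    intro E _ _ x hx
    apply X_pow_sub_C_irreducible_of_prime Nat.prime_two
    intro b hb
    have hm : (X ^ 2 - C a : K[X]).Monic := monic_X_pow_sub_C a (by norm_num)
    have hroot : aeval x (X ^ 2 - C a : K[X]) = 0 := by rw [← hx]; exact minpoly.aeval _ _
    have hint : IsIntegral K x := ⟨_, hm, hroot⟩
    have hx2 : x ^ 2 = algebraMap K E a := by
      rw [map_sub, map_pow, aeval_X, aeval_C] at hroot
      exact sub_eq_zero.1 hroot
    have hbE : (b : E) ^ 2 = x := by
      have := congrArg (algebraMap K⟮x⟯ E) hb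
      rwa [map_pow, AdjoinSimple.algebraMap_gen] at this
    obtain ⟨p, hp⟩ : ∃ p : K[X], aeval x p = (b : E) := by
      have h2 : (b : E) ∈ (K⟮x⟯).toSubalgebra := b.2
      rw [adjoin_simple_toSubalgebra_of_isAlgebraic hint.isAlgebraic, Algebra.adjoin_singleton_eq_range_aeval] at h2
      exact h2
    obtain ⟨r, hr⟩ : ∃ r, r = p %ₘ (X ^ 2 - C a) := ⟨_, rfl⟩
    have hrb : aeval x r = (b : E) := by
      rw [hr, aeval_modByMonic_eq_self_of_root hroot, hp]
    have hrd : r.degree ≤ 1 := by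
      have h2 : r.degree < (X ^ 2 - C a : K[X]).degree := by
        rw [hr]; exact degree_modByMonic_lt _ hm
      rw [degree_X_pow_sub_C (by norm_num)] at h2
      exact Order.le_of_lt_succ h2
    obtain ⟨u, hu⟩ : ∃ u, u = r.coeff 0 := ⟨_, rfl⟩
    obtain ⟨v, hv⟩ : ∃ v, v = r.coeff 1 := ⟨_, rfl⟩
    rw [eq_X_add_C_of_degree_le_one hrd, ← hu, ← hv, map_add, map_mul, aeval_C, aeval_C, aeval_X]
      at hrb
    rw [← hrb] at hbE
    obtain ⟨s, hs⟩ : ∃ s : K[X], s = C (2 * u * v - 1) * X + C (u ^ 2 + v ^ 2 * a) := ⟨_, rfl⟩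
    have hs0 : s = 0 := by
      by_contra hne
      have h2 := minpoly.degree_le_of_ne_zero K x hne (by
        rw [hs]
        simp only [map_add, map_mul, aeval_C, aeval_X, map_sub, map_one, map_pow, map_ofNat]
        have : (algebraMap K E v * x + algebraMap K E u) ^ 2 = algebraMap K E v ^ 2 * x ^ 2
          + 2 * algebraMap K E u * algebraMap K E v * x + algebraMap K E u ^ 2 := by ring
        rw [this, hx2] at hbE
        linear_combination hbE)
      rw [hx, degree_X_pow_sub_C (by norm_num)] at h2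
      have h3 : s.degree ≤ 1 := by
        rw [hs]
        exact degree_linear_le
      have h5 := h2.trans h3
      exact absurd h5 (by decide)
    have e1 : 2 * u * v - 1 = 0 := by
      have := congrArg (fun s => s.coeff 1) hs0
      rwa [hs, coeff_add, coeff_C_mul, coeff_X_one, mul_one, coeff_C_of_ne_zero one_ne_zero, add_zero,
        coeff_zero] at this
    have e2 : u ^ 2 + v ^ 2 * a = 0 := by
      have := congrArg (fun s => s.coeff 0) hs0
      rwa [hs, coeff_add, coeff_C_mul, coeff_X_zero, mul_zero, coeff_C_zero, zero_add,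
        coeff_zero] at this
    apply h4 u
    have e3 : 2 * u * v = 1 := sub_eq_zero.1 e1
    have e4 : (2 * u) ^ 2 * (u ^ 2 + v ^ 2 * a) = 4 * u ^ 4 + (2 * u * v) ^ 2 * a := by ring
    rw [e2, e3, mul_zero, one_pow, one_mul] at e4
    linear_combination e4
  exact key

/-- the `k`-th root of a rational number read off at a rational place -/
lemma rat_root {L : Type*} [Field L] [Algebra ℚ L] (A : ValuationSubring L)
    (hAQ : ∀ r : ℚ, algebraMap ℚ L r ∈ A)
    (hr : ∀ l ∈ A, ∃ r : ℚ, A.valuation (l - algebraMap ℚ L r) < 1) (q W : L) (m j k : ℕ)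
    (hm : j * k = m) (hm0 : m ≠ 0)
    (hW : A.valuation (q / W ^ m - 1) < 1) (e c : ℚ) (he : e ≠ 0) (hc : c ≠ 0) (w : L)
    (hw : algebraMap ℚ L e * w ^ k = algebraMap ℚ L c * q) : ∃ v : L, v ^ k = q := by
  have hchL : CharZero L := algebraRat.charZero L
  have hk0 : k ≠ 0 := by rintro rfl; exact hm0 (by rw [← hm, mul_zero])
  have hW0 : W ≠ 0 := by
    rintro rfl
    rw [zero_pow hm0, div_zero, zero_sub, Valuation.map_neg, map_one] at hW
    exact lt_irrefl _ hW
  have hval : ∀ r : ℚ, r ≠ 0 → A.valuation (algebraMap ℚ L r) = 1 := by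
    intro r hr0
    apply val_alg A hAQ
    · exact isAlgebraic_algebraMap r
    · rwa [Ne, map_eq_zero_iff _ (algebraMap ℚ L).injective]
  obtain ⟨v, hv⟩ : ∃ v : L, v = w / W ^ j := ⟨_, rfl⟩
  have h1 : algebraMap ℚ L e * v ^ k = algebraMap ℚ L c * (q / W ^ m) := by
    rw [hv, div_pow, ← pow_mul, hm, ← mul_div_assoc, ← mul_div_assoc, hw]
  have hqv : A.valuation (q / W ^ m) = 1 := by
    have h2 : q / W ^ m = 1 + (q / W ^ m - 1) := by ring
    rw [h2, Valuation.map_add_eq_of_lt_left]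
    · rw [map_one]
    · rwa [map_one]
  have hvv : A.valuation v = 1 := by
    have h2 := congrArg A.valuation h1
    rw [map_mul, map_mul, hval e he, hval c hc, hqv, map_pow, one_mul, one_mul] at h2
    exact (pow_eq_one_iff_of_nonneg zero_le hk0).1 h2
  have hvA : v ∈ A := (A.valuation_le_one_iff v).1 hvv.le
  obtain ⟨r, hr1⟩ := hr v hvA
  have h3 : A.valuation (v ^ k - algebraMap ℚ L r ^ k) < 1 := by
    have h4 : (⟨v, hvA⟩ - ⟨algebraMap ℚ L r, hAQ r⟩ : A) ∣
        (⟨v, hvA⟩ : A) ^ k - (⟨algebraMap ℚ L r, hAQ r⟩ : A) ^ k := sub_dvd_pow_sub_pow _ _ k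
    obtain ⟨s, hs⟩ := h4
    have h5 : v ^ k - algebraMap ℚ L r ^ k = (v - algebraMap ℚ L r) * (s : L) := by
      have := congrArg (fun t : A => (t : L)) hs
      exact this
    rw [h5, map_mul]
    exact mul_lt_one_of_lt_of_le hr1 (A.valuation_le_one s)
  have h6 : A.valuation (algebraMap ℚ L (c - e * r ^ k)) < 1 := by
    have h7 : algebraMap ℚ L (c - e * r ^ k) = algebraMap ℚ L e * (v ^ k - algebraMap ℚ L r ^ k)
        - algebraMap ℚ L c * (q / W ^ m - 1) := by
      rw [mul_sub, h1, map_sub, map_mul, map_pow]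
      ring
    rw [h7]
    refine Valuation.map_sub_lt _ ?_ ?_
    · rwa [map_mul, hval e he, one_mul]
    · rwa [map_mul, hval c hc, one_mul]
  have h8 : c = e * r ^ k := by
    by_contra hne
    rw [hval _ (sub_ne_zero.2 hne)] at h6
    exact lt_irrefl _ h6
  have hr0 : r ≠ 0 := by
    rintro rfl
    rw [zero_pow hk0, mul_zero] at h8
    exact hc h8
  have heL : algebraMap ℚ L e ≠ 0 := by rwa [Ne, map_eq_zero_iff _ (algebraMap ℚ L).injective]
  have hrL : algebraMap ℚ L r ≠ 0 := by rwa [Ne, map_eq_zero_iff _ (algebraMap ℚ L).injective]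
  refine ⟨w / algebraMap ℚ L r, ?_⟩
  rw [div_pow, div_eq_iff (pow_ne_zero _ hrL)]
  rw [h8, map_mul, map_pow, mul_assoc] at hw
  rw [mul_left_cancel₀ heL hw, mul_comm]

/-- irreducibility -/
lemma irr_c {L : Type*} [Field L] [Algebra ℚ L] (A : ValuationSubring L)
    (hAQ : ∀ r : ℚ, algebraMap ℚ L r ∈ A)
    (hr : ∀ l ∈ A, ∃ r : ℚ, A.valuation (l - algebraMap ℚ L r) < 1) (q W : L) (m p : ℕ)
    (hp : p.Prime) (hm : (p ≠ 2 ∧ m = p) ∨ (p = 2 ∧ m = 4))
    (hW : A.valuation (q / W ^ m - 1) < 1) (hq : ∀ w : L, w ^ p ≠ q) (c : ℤ) (hc : c ≠ 0) :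
    Irreducible (X ^ m - C ((c : L) * q) : L[X]) := by
  have hchL : CharZero L := algebraRat.charZero L
  have hcQ : ((c : ℚ)) ≠ 0 := by exact_mod_cast hc
  have hcL : algebraMap ℚ L (c : ℚ) = (c : L) := by simp
  rcases hm with ⟨h2, rfl⟩ | ⟨rfl, rfl⟩
  · apply X_pow_sub_C_irreducible_of_prime hp
    intro w hw
    obtain ⟨v, hv⟩ := rat_root A hAQ hr q W m 1 m (one_mul m) hp.ne_zero hW 1 c one_ne_zero hcQ w
      (by rw [map_one, one_mul, hcL, hw])
    exact hq v hv
  · apply irr4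
    · intro w hw
      obtain ⟨v, hv⟩ := rat_root A hAQ hr q W 4 2 2 (by norm_num) (by norm_num) hW 1 c one_ne_zero
        hcQ w (by rw [map_one, one_mul, hcL, hw])
      exact hq v hv
    · intro w hw
      obtain ⟨v, hv⟩ := rat_root A hAQ hr q W 4 1 4 (by norm_num) (by norm_num) hW (-4) c
        (by norm_num) hcQ w (by rw [hcL, ← hw]; simp)
      apply hq (v ^ 2)
      rw [← pow_mul, hv]

end Pool.Agent.V8H28.TC
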