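import Pool.Agent.V8H28.PV.Final

/-!
The residue field of a place which is alone at infinity on a covering `z ^ n = Q`.
-/

open Polynomial IntermediateField

set_option autoImplicit false

namespace Pool.Agent.V8H28.TC

open Pool.Agent.H322R2 Pool.Agent.V8H28.DV Pool.Agent.V8H28.PV

/-- a rational polynomial which vanishes at all conjugates modulo the maximal ideal -/
lemma key_deg {M : Type*} [Field M] [Algebra ℚ M] [IsAlgClosed M] (V : ValuationSubring M)
    (hV : ∀ q : ℚ, algebraMap ℚ M q ∈ V) (n : ℕ) (hn : 2 ≤ n) (t : M) (ht : V.valuation t = 1)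
    (p : ℚ[X]) (hp : p ≠ 0) (h : ∀ ζ : M, ζ ^ n = 1 → V.valuation (aeval (ζ * t) p) < 1) :
    n ≤ p.natDegree := by
  classical
  have hch : CharZero M := algebraRat.charZero M
  have ht0 : t ≠ 0 := by
    rintro rfl
    rw [map_zero] at ht
    exact zero_ne_one ht
  obtain ⟨ε, hε⟩ : ∃ ε : M, IsPrimitiveRoot ε n := by
    have : NeZero (n : M) := ⟨by exact_mod_cast (by omega : n ≠ 0)⟩
    exact HasEnoughRootsOfUnity.exists_primitiveRoot M n
  have hrat : ∀ ζ : M, ζ ^ n = 1 → IsAlgebraic ℚ ζ := by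
    intro ζ hζ
    refine ⟨X ^ n - 1, (monic_X_pow_sub_C (1 : ℚ) (by omega : n ≠ 0)).ne_zero, ?_⟩
    simp [hζ]
  have hne : ∀ ζ : M, ζ ^ n = 1 → ζ ≠ 0 := by
    rintro ζ hζ rfl
    rw [zero_pow (by omega)] at hζ
    exact zero_ne_one hζ
  have hmem : ∀ ζ : M, ζ ^ n = 1 → ζ * t ∈ V := by
    intro ζ hζ
    rw [← V.valuation_le_one_iff, map_mul, val_alg V hV ζ (hrat ζ hζ) (hne ζ hζ), ht, one_mul]
  obtain ⟨g, hg⟩ : ∃ g : ℚ →+* V, ∀ q, ((g q : V) : M) = algebraMap ℚ M q :=
    ⟨(algebraMap ℚ M).codRestrict _ hV, fun q => rfl⟩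
  obtain ⟨φ, hφ⟩ : ∃ φ : ℚ →+* IsLocalRing.ResidueField V, φ = (IsLocalRing.residue V).comp g :=
    ⟨_, rfl⟩
  have hφp : p.map φ ≠ 0 := by
    rwa [Ne, Polynomial.map_eq_zero_iff φ.injective]
  have hev : ∀ s : V, eval (IsLocalRing.residue V s) (p.map φ)
      = IsLocalRing.residue V (eval₂ g s p) := by
    intro s
    rw [eval_map, hφ, hom_eval₂]
  have hco : ∀ s : V, ((eval₂ g s p : V) : M) = aeval (s : M) p := by
    intro s
    have h1 := hom_eval₂ p g (V.subtype) s
    rw [aeval_def]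
    refine h1.trans ?_
    congr 1
    exact RingHom.ext_rat _ _
  obtain ⟨R, hR⟩ : ∃ R : Fin n → IsLocalRing.ResidueField V, ∀ i, R i
      = IsLocalRing.residue V ⟨ε ^ (i : ℕ) * t, hmem _ (by
        rw [← pow_mul, mul_comm, pow_mul, hε.pow_eq_one, one_pow])⟩ := ⟨_, fun i => rfl⟩
  have hRinj : Function.Injective R := by
    intro i j hij
    rw [hR, hR, ← sub_eq_zero, ← map_sub, IsLocalRing.residue_eq_zero_iff,
      V.valuation_lt_one_iff] at hij
    by_contra hne'
    have h1 : ε ^ (i : ℕ) - ε ^ (j : ℕ) ≠ 0 := by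
      intro h0
      apply hne'
      exact Fin.ext (hε.pow_inj i.2 j.2 (sub_eq_zero.1 h0))
    have h2 : IsAlgebraic ℚ (ε ^ (i : ℕ) - ε ^ (j : ℕ)) :=
      ((hrat ε hε.pow_eq_one).pow _).sub ((hrat ε hε.pow_eq_one).pow _)
    have h3 : (((⟨ε ^ (i : ℕ) * t, hmem _ (by
        rw [← pow_mul, mul_comm, pow_mul, hε.pow_eq_one, one_pow])⟩ : V) -
        (⟨ε ^ (j : ℕ) * t, hmem _ (by
        rw [← pow_mul, mul_comm, pow_mul, hε.pow_eq_one, one_pow])⟩ : V) : V) : M)
        = (ε ^ (i : ℕ) - ε ^ (j : ℕ)) * t := by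
      show ε ^ (i : ℕ) * t - ε ^ (j : ℕ) * t = _
      ring
    rw [h3, map_mul, val_alg V hV _ h2 h1, ht, one_mul] at hij
    exact lt_irrefl _ hij
  have hroot : ∀ i, R i ∈ (p.map φ).roots.toFinset := by
    intro i
    rw [Multiset.mem_toFinset, mem_roots hφp, IsRoot, hR, hev, IsLocalRing.residue_eq_zero_iff,
      V.valuation_lt_one_iff, hco]
    apply h
    rw [← pow_mul, mul_comm, pow_mul, hε.pow_eq_one, one_pow]
  have h1 : (Finset.univ.image R) ⊆ (p.map φ).roots.toFinset := by
    intro r hr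
    rw [Finset.mem_image] at hr
    obtain ⟨i, -, rfl⟩ := hr
    exact hroot i
  have h2 := Finset.card_le_card h1
  rw [Finset.card_image_of_injective _ hRinj, Finset.card_univ, Fintype.card_fin] at h2
  calc n ≤ (p.map φ).roots.toFinset.card := h2
    _ ≤ Multiset.card (p.map φ).roots := Multiset.toFinset_card_le _
    _ ≤ (p.map φ).natDegree := card_roots' _
    _ ≤ p.natDegree := natDegree_map_le

/-- the residue field of the only place at infinity -/
theorem res_main (n : ℕ) (hn : 2 ≤ n) (L M : Type) [Field L] [Algebra ℚ L] [Field M] [Algebra ℚ M]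
    [Algebra L M] [IsScalarTower ℚ L M] [IsAlgClosed M] [Normal L M]
    (π : MvPolynomial (Fin 2) ℚ →ₐ[ℚ] L) (q W : L) (c : ℤ) (hc : c ≠ 0) (z : M)
    (hirr : Irreducible (X ^ n - C ((c : L) ^ (n - 1) * q) : L[X]))
    (hz : z ^ n = algebraMap L M ((c : L) ^ (n - 1) * q))
    (hW : ∀ A : ValuationSubring L, (∀ r : ℚ, algebraMap ℚ L r ∈ A) →
      ¬ (π (MvPolynomial.X 0) ∈ A ∧ π (MvPolynomial.X 1) ∈ A) → A.valuation (q / W ^ n - 1) < 1)
    (hrat : ∀ A : ValuationSubring L, (∀ r : ℚ, algebraMap ℚ L r ∈ A) →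
      ¬ (π (MvPolynomial.X 0) ∈ A ∧ π (MvPolynomial.X 1) ∈ A) →
      ∀ l ∈ A, ∃ r : ℚ, A.valuation (l - algebraMap ℚ L r) < 1)
    (a : MvPolynomial (Fin 2) ℚ) (K : IntermediateField ℚ M) (A : ValuationSubring K)
    (ha : Transcendental ℚ (π a)) (hLK : ∀ l : L, algebraMap L M l ∈ K) (hzK : z ∈ K)
    (hgen : ∀ s ∈ K, ∃ p : L[X], p.natDegree < n ∧ aeval z p = s)
    (huniq : ∀ A' : ValuationSubring K, (∀ r : ℚ, (r : K) ∈ A') →
      (∀ t : K, (t : M) = algebraMap L M (π a) → t ∉ A') → A' = A)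
    (f : A →+* ℝ) (hf : ∀ s : A, f s = 0 → A.valuation (s : K) < 1)
    (hf' : ∀ s : A, A.valuation (s : K) < 1 → f s = 0) :
    ∃ r0 : ℝ, r0 ^ n = (c : ℝ) ^ (n - 1) ∧ (∃ s, f s = r0) ∧
      (∀ p : ℚ[X], p ≠ 0 → aeval r0 p = 0 → n ≤ p.natDegree) ∧ ∀ s, f s ∈ ℚ⟮r0⟯ := by
  have hchM : CharZero M := algebraRat.charZero M
  have hchL : CharZero L := algebraRat.charZero L
  obtain ⟨V, hV, haV⟩ := exists_V (algebraMap L M (π a))
    ((transcendental_algebraMap_iff (algebraMap L M).injective).2 ha)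
  -- the place of `L`
  obtain ⟨B, hB⟩ : ∃ B : ValuationSubring L, B = V.comap (algebraMap L M) := ⟨_, rfl⟩
  have hBm : ∀ l : L, l ∈ B ↔ algebraMap L M l ∈ V := by
    intro l
    rw [hB, ValuationSubring.mem_comap]
  have hBQ : ∀ r : ℚ, algebraMap ℚ L r ∈ B := by
    intro r
    rw [hBm, ← IsScalarTower.algebraMap_apply]
    exact hV r
  have hBinf : ¬ (π (MvPolynomial.X 0) ∈ B ∧ π (MvPolynomial.X 1) ∈ B) := by
    rintro ⟨h0, h1⟩
    exact haV ((hBm _).1 (pi_mem π B hBQ h0 h1 a))
  have hBv := hW B hBQ hBinf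
  have hBr := hrat B hBQ hBinf
  have hBV : ∀ l : L, B.valuation l < 1 → V.valuation (algebraMap L M l) < 1 := by
    intro l hl
    rw [val_lt_iff] at hl ⊢
    rcases hl with h | h
    · left; rw [h, map_zero]
    · right
      rw [← map_inv₀, ← hBm]
      exact h
  have hW0 : W ≠ 0 := by
    rintro rfl
    rw [zero_pow (by omega), div_zero, zero_sub, Valuation.map_neg, map_one] at hBv
    exact lt_irrefl _ hBv
  have hWM : algebraMap L M W ≠ 0 := by
    rwa [Ne, map_eq_zero_iff _ (algebraMap L M).injective]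
  obtain ⟨t, ht⟩ : ∃ t : M, t = z / algebraMap L M W := ⟨_, rfl⟩
  have hcM : V.valuation ((c : M)) = 1 := by
    apply val_alg V hV
    · exact isAlgebraic_intCast c
    · exact_mod_cast hc
  have hte : t ^ n - (c : M) ^ (n - 1) = (c : M) ^ (n - 1) * algebraMap L M (q / W ^ n - 1) := by
    rw [ht, div_pow, hz, map_mul, map_pow, map_intCast, map_sub, map_one, map_div₀, map_pow]
    ring
  have hVt : V.valuation (t ^ n - (c : M) ^ (n - 1)) < 1 := by
    rw [hte, map_mul, map_pow, hcM, one_pow, one_mul]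
    exact hBV _ hBv
  have hVt1 : V.valuation t = 1 := by
    have h1 : V.valuation (t ^ n) = 1 := by
      have h2 : t ^ n = (c : M) ^ (n - 1) + (t ^ n - (c : M) ^ (n - 1)) := by ring
      rw [h2, Valuation.map_add_eq_of_lt_left]
      · rw [map_pow, hcM, one_pow]
      · rw [map_pow, hcM, one_pow]
        exact hVt
    rw [map_pow] at h1
    exact (pow_eq_one_iff_of_nonneg zero_le (by omega)).1 h1
  -- automorphisms
  have hσ : ∀ ζ : M, ζ ^ n = 1 → ∃ σ : M ≃ₐ[L] M, σ z = ζ * z := by
    intro ζ hζ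
    have hmin : ∀ w : M, w ^ n = algebraMap L M ((c : L) ^ (n - 1) * q) →
        minpoly L w = X ^ n - C ((c : L) ^ (n - 1) * q) := by
      intro w hw
      symm
      apply minpoly.eq_of_irreducible_of_monic hirr
      · rw [map_sub, map_pow, aeval_X, aeval_C, hw, sub_self]
      · exact monic_X_pow_sub_C _ (by omega)
    have h3 : IsConjRoot L z (ζ * z) := by
      rw [IsConjRoot, hmin z hz, hmin (ζ * z) (by rw [mul_pow, hζ, one_mul, hz])]
    obtain ⟨σ, hσ⟩ := isConjRoot_iff_exists_algEquiv.1 h3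
    exact ⟨σ.symm, (AlgEquiv.symm_apply_eq _).2 hσ.symm⟩
  have hA : ∀ σ : M ≃ₐ[L] M,
      (V.comap (σ : M →+* M)).comap (algebraMap K M) = A := by
    intro σ
    apply huniq
    · intro r
      rw [ValuationSubring.mem_comap, ValuationSubring.mem_comap, map_ratCast, map_ratCast,
        ← eq_ratCast (algebraMap ℚ M)]
      exact hV r
    · intro s hs hmem
      rw [ValuationSubring.mem_comap, ValuationSubring.mem_comap] at hmem
      apply haV
      have h3 : (algebraMap K M) s = algebraMap L M (π a) := hs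
      rw [h3] at hmem
      have h4 : (σ : M →+* M) (algebraMap L M (π a)) = algebraMap L M (π a) := σ.commutes _
      rwa [h4] at hmem
  have hmemA : ∀ (σ : M ≃ₐ[L] M) (s : K), s ∈ A ↔ σ (s : M) ∈ V := by
    intro σ s
    rw [← hA σ, ValuationSubring.mem_comap, ValuationSubring.mem_comap]
    rfl
  have hvalA : ∀ (σ : M ≃ₐ[L] M) (s : K), A.valuation s < 1 ↔ V.valuation (σ (s : M)) < 1 := by
    intro σ s
    rw [val_lt_iff, val_lt_iff, hmemA σ]
    have h1 : σ (((s⁻¹ : K)) : M) = (σ (s : M))⁻¹ := by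
      rw [← map_inv₀]
      rfl
    rw [h1, map_eq_zero_iff _ σ.injective]
    constructor
    · rintro (h | h)
      · left; rw [h]; rfl
      · right; exact h
    · rintro (h | h)
      · left; exact Subtype.ext h
      · right; exact h
  have hmem1 : ∀ s : K, s ∈ A ↔ (s : M) ∈ V := fun s => hmemA (AlgEquiv.refl) s
  have hval1 : ∀ s : K, A.valuation s < 1 ↔ V.valuation (s : M) < 1 :=
    fun s => hvalA (AlgEquiv.refl) s
  -- the element `θ`
  obtain ⟨θ, hθ⟩ : ∃ θ : K, (θ : M) = t := by
    refine ⟨⟨t, ?_⟩, rfl⟩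
    rw [ht]
    exact div_mem hzK (hLK W)
  have hθA : θ ∈ A := by
    rw [hmem1, hθ, ← V.valuation_le_one_iff, hVt1]
  have hratA : ∀ r : ℚ, (r : K) ∈ A := by
    intro r
    rw [hmem1]
    have h1 : (((r : K)) : M) = algebraMap ℚ M r := by
      rw [eq_ratCast]
      exact map_ratCast (algebraMap K M) r
    rw [h1]
    exact hV r
  obtain ⟨g, hg⟩ : ∃ g : ℚ →+* A, ∀ r : ℚ, ((g r : A) : K) = (r : K) := by
    refine ⟨(Rat.castHom K).codRestrict _ (fun r => hratA r), fun r => rfl⟩
  have hfg : ∀ r : ℚ, f (g r) = r := fun r => by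
    have : f.comp g = Rat.castHom ℝ := RingHom.ext_rat _ _
    exact congrArg (fun h : ℚ →+* ℝ => h r) this
  have hfev : ∀ (p : ℚ[X]) (s : A), f (eval₂ g s p) = aeval (f s) p := by
    intro p s
    rw [hom_eval₂, aeval_def]
    congr 1
    exact RingHom.ext_rat _ _
  have hgev : ∀ (p : ℚ[X]) (s : A), (((eval₂ g s p : A) : K) : M) = aeval ((s : K) : M) p := by
    intro p s
    have h1 := hom_eval₂ p g ((algebraMap K M).comp A.subtype) s
    rw [aeval_def]
    refine h1.trans ?_
    congr 1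
    exact RingHom.ext_rat _ _
  have hkey : ∀ p : ℚ[X], p ≠ 0 → aeval (f ⟨θ, hθA⟩) p = 0 → n ≤ p.natDegree := by
    intro p hp hp0
    rw [← hfev] at hp0
    have h1 := hf _ hp0
    apply key_deg V hV n hn t hVt1 p hp
    intro ζ hζ
    obtain ⟨σ, hσz⟩ := hσ ζ hζ
    rw [hvalA σ, hgev] at h1
    have h2 : σ ((aeval (((⟨θ, hθA⟩ : A) : K) : M)) p) = aeval (ζ * t) p := by
      have h3 : σ t = ζ * t := by
        rw [ht, map_div₀, hσz, σ.commutes]
        ring
      rw [show (((⟨θ, hθA⟩ : A) : K) : M) = t from hθ]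
      have h4 := hom_eval₂ p (algebraMap ℚ M) (σ : M →+* M) t
      rw [aeval_def, aeval_def, ← h3]
      refine h4.trans ?_
      congr 1
      exact RingHom.ext_rat _ _
    rwa [h2] at h1
  refine ⟨f ⟨θ, hθA⟩, ?_, ⟨_, rfl⟩, hkey, ?_⟩
  · have h1 : A.valuation (θ ^ n - (c : K) ^ (n - 1)) < 1 := by
      rw [hval1]
      have : (((θ ^ n - (c : K) ^ (n - 1) : K)) : M) = t ^ n - (c : M) ^ (n - 1) := by
        rw [← hθ]
        simp
      rw [this]
      exact hVt
    have h2 := hf' ((⟨θ, hθA⟩ : A) ^ n - (c : A) ^ (n - 1)) (by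
      have : (((⟨θ, hθA⟩ : A) ^ n - (c : A) ^ (n - 1) : A) : K) = θ ^ n - (c : K) ^ (n - 1) := by
        simp
      rw [this]
      exact h1)
    rw [map_sub, map_pow, map_pow, map_intCast, sub_eq_zero] at h2
    exact h2
  · -- every residue is a rational polynomial in the residue of `θ`
    intro s
    obtain ⟨p, hpd, hps⟩ := hgen ((s : K) : M) (s : K).2
    obtain ⟨m, hm⟩ : ∃ m : Fin n → L, ∀ i, m i = p.coeff i * W ^ (i : ℕ) := ⟨_, fun i => rfl⟩
    have hsum : ((s : K) : M) = ∑ i : Fin n, algebraMap L M (m i) * t ^ (i : ℕ) := by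
      rw [← hps, aeval_eq_sum_range' hpd, Finset.sum_range]
      apply Finset.sum_congr rfl
      intro i _
      rw [hm, map_mul, map_pow, ht, Algebra.smul_def, div_pow]
      have := pow_ne_zero (i : ℕ) hWM
      field_simp
    -- all the coefficients are integral at the place
    have hmB : ∀ i, m i ∈ B := by
      by_contra hcon
      push Not at hcon
      obtain ⟨i1, hi1⟩ := hcon
      obtain ⟨i0, -, hi0⟩ := Finset.exists_max_image Finset.univ (fun i => B.valuation (m i))
        ⟨i1, Finset.mem_univ _⟩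
      have hv1 : 1 < B.valuation (m i1) := by
        rw [← B.valuation_le_one_iff, not_le] at hi1
        exact hi1
      have hv0 : 1 < B.valuation (m i0) := hv1.trans_le (hi0 i1 (Finset.mem_univ _))
      have hm0 : m i0 ≠ 0 := by
        intro h
        rw [h, map_zero] at hv0
        exact absurd hv0 (not_lt.2 zero_le_one)
      have hquo : ∀ i, m i / m i0 ∈ B := by
        intro i
        rw [← B.valuation_le_one_iff, map_div₀]
        exact div_le_one_of_le₀ (hi0 i (Finset.mem_univ _)) zero_le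
      choose r hr using fun i => hBr _ (hquo i)
      obtain ⟨P, hP⟩ : ∃ P : ℚ[X], P = ∑ i : Fin n, C (r i) * X ^ (i : ℕ) := ⟨_, rfl⟩
      have hPc : ∀ i : Fin n, P.coeff i = r i := by
        intro i
        rw [hP, finsetSum_coeff, Finset.sum_eq_single i]
        · rw [coeff_C_mul, coeff_X_pow, if_pos rfl, mul_one]
        · intro j _ hj
          rw [coeff_C_mul, coeff_X_pow, if_neg (fun h => hj (Fin.ext h.symm)), mul_zero]
        · intro h; exact absurd (Finset.mem_univ _) h
      have hPd : P.natDegree < n := by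
        rw [hP]
        apply lt_of_le_of_lt (natDegree_sum_le_of_forall_le (n := n - 1) _ _ ?_) (by omega)
        intro i _
        refine (natDegree_C_mul_X_pow_le _ _).trans ?_
        have := i.2
        omega
      have hP0 : P ≠ 0 := by
        intro h
        have h1 := hr i0
        rw [← hPc, h, coeff_zero, map_zero, sub_zero, div_self hm0, map_one] at h1
        exact lt_irrefl _ h1
      have h1 := hkey P hP0 (by
        rw [← hfev]
        apply hf'
        rw [hval1, hgev]
        rw [show (((⟨θ, hθA⟩ : A) : K) : M) = t from hθ]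
        have h2 : aeval t P = ((s : K) : M) / algebraMap L M (m i0)
            - ∑ i : Fin n, algebraMap L M (m i / m i0 - algebraMap ℚ L (r i)) * t ^ (i : ℕ) := by
          rw [hsum, Finset.sum_div, ← Finset.sum_sub_distrib, hP, map_sum]
          apply Finset.sum_congr rfl
          intro i _
          rw [map_mul, map_pow, aeval_C, aeval_X, map_sub, map_div₀,
            ← IsScalarTower.algebraMap_apply ℚ L M]
          ring
        rw [h2]
        apply (Valuation.map_sub _ _ _).trans_lt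
        apply max_lt
        · rw [map_div₀]
          have h3 : V.valuation ((s : K) : M) ≤ 1 := by
            rw [V.valuation_le_one_iff, ← hmem1]
            exact s.2
          have h4 : 1 < V.valuation (algebraMap L M (m i0)) := by
            rw [← not_le, V.valuation_le_one_iff, ← hBm, ← B.valuation_le_one_iff, not_le]
            exact hv0
          rw [div_lt_one₀ (lt_trans zero_lt_one h4)]
          exact h3.trans_lt h4
        · apply Valuation.map_sum_lt _ one_ne_zero
          intro i _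
          rw [map_mul, map_pow, hVt1, one_pow, mul_one]
          exact hBV _ (hr i))
      omega
    choose r hr using fun i => hBr _ (hmB i)
    have h1 : f s = ∑ i : Fin n, (r i : ℝ) * f ⟨θ, hθA⟩ ^ (i : ℕ) := by
      have h2 := hf' (s - ∑ i : Fin n, g (r i) * (⟨θ, hθA⟩ : A) ^ (i : ℕ)) (by
        rw [hval1]
        have h3 : (((s - ∑ i : Fin n, g (r i) * (⟨θ, hθA⟩ : A) ^ (i : ℕ) : A) : K) : M)
            = ∑ i : Fin n, algebraMap L M (m i - algebraMap ℚ L (r i)) * t ^ (i : ℕ) := by
          have h4 : ((((∑ i : Fin n, g (r i) * (⟨θ, hθA⟩ : A) ^ (i : ℕ) : A)) : K) : M)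
              = ∑ i : Fin n, algebraMap ℚ M (r i) * t ^ (i : ℕ) := by
            have h5 := map_sum ((algebraMap K M).comp A.subtype)
              (fun i : Fin n => g (r i) * (⟨θ, hθA⟩ : A) ^ (i : ℕ)) Finset.univ
            refine h5.trans ?_
            apply Finset.sum_congr rfl
            intro i _
            rw [map_mul, map_pow]
            congr 1
            · show (((g (r i) : A) : K) : M) = _
              rw [hg, eq_ratCast]
              exact map_ratCast (algebraMap K M) (r i)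
            · congr 1
          have h5 : (((s - ∑ i : Fin n, g (r i) * (⟨θ, hθA⟩ : A) ^ (i : ℕ) : A) : K) : M)
              = ((s : K) : M) - ((((∑ i : Fin n, g (r i) * (⟨θ, hθA⟩ : A) ^ (i : ℕ) : A)) : K) : M)
              := rfl
          rw [h5, h4, hsum, ← Finset.sum_sub_distrib]
          apply Finset.sum_congr rfl
          intro i _
          rw [map_sub, ← IsScalarTower.algebraMap_apply ℚ L M]
          ring
        rw [h3]
        apply Valuation.map_sum_lt _ one_ne_zero
        intro i _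
        rw [map_mul, map_pow, hVt1, one_pow, mul_one]
        exact hBV _ (hr i))
      rw [map_sub, map_sum, sub_eq_zero] at h2
      rw [h2]
      apply Finset.sum_congr rfl
      intro i _
      rw [map_mul, map_pow, hfg]
    rw [h1]
    apply sum_mem
    intro i _
    apply mul_mem
    · have h9 := IntermediateField.algebraMap_mem ℚ⟮f ⟨θ, hθA⟩⟯ (r i)
      rwa [eq_ratCast] at h9
    · exact pow_mem (IntermediateField.mem_adjoin_simple_self ℚ _) _

end Pool.Agent.V8H28.TC
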