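import Pool.Agent.V8H28.TC.Cover2
import Pool.Agent.V8H28.TC.Res
import Pool.Agent.V8H28.TC.Irr

/-!
Integer points and the `n`-th power free part of a polynomial.
-/

open Polynomial IntermediateField

set_option autoImplicit false

namespace Pool.Agent.V8H28.TC

open Pool.Agent.H322R2 Pool.Agent.V8H28.DV Pool.Agent.V8H28.PV

/-- the prime factors of a number occurring with an exponent prime to `n` -/
lemma nfree (n R : ℕ) (hn : 1 ≤ n) (hR : 1 ≤ R) (q u p A B : ℤ) (h1 : q * u = p ^ n)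
    (h2 : A * q + B * u = R) :
    ∃ c z : ℤ, c ≠ 0 ∧ q = c * z ^ n ∧ c.natAbs ≤ R ^ (n - 1) := by
  classical
  by_cases hq : q = 0
  · refine ⟨1, 0, one_ne_zero, ?_, ?_⟩
    · rw [hq, zero_pow (by omega), mul_zero]
    · simpa using Nat.one_le_pow _ _ hR
  obtain ⟨m, hm⟩ : ∃ m, m = q.natAbs := ⟨_, rfl⟩
  have hm0 : m ≠ 0 := by rw [hm]; exact Int.natAbs_ne_zero.2 hq
  obtain ⟨c0, hc0⟩ : ∃ c0, c0 = ∏ p ∈ m.primeFactors, p ^ (m.factorization p % n) := ⟨_, rfl⟩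
  obtain ⟨w, hw⟩ : ∃ w, w = ∏ p ∈ m.primeFactors, p ^ (m.factorization p / n) := ⟨_, rfl⟩
  have hmc : m = c0 * w ^ n := by
    rw [hc0, hw, ← Finset.prod_pow, ← Finset.prod_mul_distrib]
    conv_lhs => rw [← Nat.prod_factorization_pow_eq_self hm0]
    rw [Finsupp.prod, Nat.support_factorization]
    apply Finset.prod_congr rfl
    intro r _
    rw [← pow_mul, ← pow_add]
    congr 1
    have := Nat.mod_add_div (m.factorization r) n
    rw [mul_comm] at this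
    exact this.symm
  have hc0' : c0 ≠ 0 := by
    rintro rfl
    rw [zero_mul] at hmc
    exact hm0 hmc
  have hprime : ∀ r : ℕ, r.Prime → r ∣ m → m.factorization r % n ≠ 0 → r ∣ R := by
    intro r hr hrm hrn
    by_contra hrR
    have hrq : (r : ℤ) ∣ q := Int.natCast_dvd.2 (by rw [← hm]; exact hrm)
    have hru : ¬ (r : ℤ) ∣ u := by
      intro hru
      apply hrR
      have : (r : ℤ) ∣ R := by
        rw [← h2]
        exact dvd_add (Dvd.dvd.mul_left hrq _) (Dvd.dvd.mul_left hru _)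
      exact_mod_cast this
    have hu0 : u ≠ 0 := by
      rintro rfl
      exact hru (dvd_zero _)
    have hun : u.natAbs ≠ 0 := Int.natAbs_ne_zero.2 hu0
    have h3 : m * u.natAbs = p.natAbs ^ n := by
      rw [hm, ← Int.natAbs_mul, h1, Int.natAbs_pow]
    have h4 := congrArg (fun k => k.factorization r) h3
    rw [Nat.factorization_mul hm0 hun, Nat.factorization_pow] at h4
    simp only [Finsupp.coe_add, Pi.add_apply, Finsupp.coe_smul, Pi.smul_apply, smul_eq_mul] at h4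
    have h5 : u.natAbs.factorization r = 0 := by
      apply Nat.factorization_eq_zero_of_not_dvd
      intro h
      apply hru
      exact Int.natCast_dvd.2 h
    rw [h5, add_zero] at h4
    apply hrn
    rw [h4]
    exact Nat.mul_mod_right _ _
  have hc0R : c0 ≤ R ^ (n - 1) := by
    obtain ⟨S, hS⟩ : ∃ S, S = m.primeFactors.filter (fun r => m.factorization r % n ≠ 0) :=
      ⟨_, rfl⟩
    have h3 : c0 = ∏ r ∈ S, r ^ (m.factorization r % n) := by
      rw [hc0, hS, Finset.prod_filter]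
      apply Finset.prod_congr rfl
      intro r _
      by_cases h : m.factorization r % n ≠ 0
      · rw [if_pos h]
      · rw [if_neg h]
        rw [not_not] at h
        rw [h, pow_zero]
    have h4 : ∏ r ∈ S, r ^ (m.factorization r % n) ≤ ∏ r ∈ S, r ^ (n - 1) := by
      apply Finset.prod_le_prod' 
      intro r hr
      rw [hS, Finset.mem_filter] at hr
      apply Nat.pow_le_pow_right (Nat.prime_of_mem_primeFactors hr.1).pos
      have := Nat.mod_lt (m.factorization r) (show 0 < n by omega)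
      omega
    have h5 : ∏ r ∈ S, r ≤ R := by
      have h6 : S ⊆ R.primeFactors := by
        intro r hr
        rw [hS, Finset.mem_filter] at hr
        have hrp := Nat.prime_of_mem_primeFactors hr.1
        exact Nat.mem_primeFactors.2 ⟨hrp, hprime r hrp (Nat.dvd_of_mem_primeFactors hr.1) hr.2,
          by omega⟩
      refine le_trans (Finset.prod_le_prod_of_subset_of_one_le' h6 ?_)
        (Nat.le_of_dvd hR (Nat.prod_primeFactors_dvd R))
      intro r hr _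
      exact (Nat.prime_of_mem_primeFactors hr).one_lt.le
    rw [h3]
    refine h4.trans ?_
    rw [Finset.prod_pow]
    exact Nat.pow_le_pow_left h5 _
  rcases Int.natAbs_eq q with h | h
  · refine ⟨c0, w, by exact_mod_cast hc0', ?_, by simpa using hc0R⟩
    rw [h, ← hm, hmc]; push_cast; ring
  · refine ⟨-c0, w, by rw [neg_ne_zero]; exact_mod_cast hc0', ?_, by simpa using hc0R⟩
    rw [h, ← hm, hmc]; push_cast; ring

/-- the positive `n`-th root of `|c| ^ (n - 1)` -/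
noncomputable def rt (n : ℕ) (c : ℤ) : ℝ := (|(c : ℝ)| ^ (n - 1)) ^ ((n : ℝ)⁻¹)

lemma abs_eq_rt (n : ℕ) (hn : n ≠ 0) (c : ℤ) (r : ℝ) (h : r ^ n = (c : ℝ) ^ (n - 1)) :
    |r| = rt n c := by
  have h1 : |r| ^ n = |(c : ℝ)| ^ (n - 1) := by rw [← abs_pow, h, abs_pow]
  rw [rt, ← h1, Real.pow_rpow_inv_natCast (abs_nonneg _) hn]

lemma adjoin_rt (n : ℕ) (hn : n ≠ 0) (c : ℤ) (r : ℝ) (h : r ^ n = (c : ℝ) ^ (n - 1)) :
    ℚ⟮r⟯ = ℚ⟮rt n c⟯ := by
  rw [← abs_eq_rt n hn c r h]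
  rcases abs_choice r with h1 | h1
  · rw [h1]
  · rw [h1]
    apply le_antisymm
    · rw [IntermediateField.adjoin_simple_le_iff]
      have := neg_mem (IntermediateField.mem_adjoin_simple_self ℚ (-r))
      rwa [neg_neg] at this
    · rw [IntermediateField.adjoin_simple_le_iff]
      exact neg_mem (IntermediateField.mem_adjoin_simple_self ℚ r)

theorem tmain1 (d D n : ℕ) (hD : 1 ≤ D) (hn : 3 ≤ n) : ∃ (Cc : ℕ) (cf : ℤ → ℕ),
    ∀ F Q : MvPolynomial (Fin 2) ℤ, F.totalDegree = D → Q.totalDegree ≤ d →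
    Irreducible (MvPolynomial.map (Int.castRingHom ℚ) F) →
    ∀ (L : Type) [Field L] [Algebra ℚ L] (π : MvPolynomial (Fin 2) ℚ →ₐ[ℚ] L),
    (∀ w, π w = 0 ↔ MvPolynomial.map (Int.castRingHom ℚ) F ∣ w) →
    (∀ z : L, ∃ w1 w2, π w2 ≠ 0 ∧ π w2 * z = π w1) →
    ∀ W : L, (∀ c : ℤ, c ≠ 0 →
      Irreducible (X ^ n - C ((c : L) * π (MvPolynomial.map (Int.castRingHom ℚ) Q)) : L[X])) →
    (∀ A : ValuationSubring L, (∀ r : ℚ, algebraMap ℚ L r ∈ A) →
      ¬ (π (MvPolynomial.X 0) ∈ A ∧ π (MvPolynomial.X 1) ∈ A) →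
      A.valuation (π (MvPolynomial.map (Int.castRingHom ℚ) Q) / W ^ n - 1) < 1) →
    (∀ A : ValuationSubring L, (∀ r : ℚ, algebraMap ℚ L r ∈ A) →
      ¬ (π (MvPolynomial.X 0) ∈ A ∧ π (MvPolynomial.X 1) ∈ A) →
      ∀ l ∈ A, ∃ r : ℚ, A.valuation (l - algebraMap ℚ L r) < 1) →
    ∀ x y z c : ℤ, c ≠ 0 → MvPolynomial.eval ![x, y] F = 0 →
      MvPolynomial.eval ![x, y] Q = c * z ^ n →
      (x.natAbs ≤ (cf c * (len F * len Q)) ^ Cc ∧ y.natAbs ≤ (cf c * (len F * len Q)) ^ Cc) := by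
  obtain ⟨C1, cc, hC1⟩ := cover2 d D n hD (by omega)
  refine ⟨C1, fun c => (C1 + cc ℚ⟮rt n c⟯) * c.natAbs ^ (n - 1), ?_⟩
  intro F Q hFD hQd hirr L _ _ π hker hsurj W hQirr hW hrat x y z c hc hF hQ
  have hchL : CharZero L := algebraRat.charZero L
  obtain ⟨q, hq⟩ : ∃ q, q = π (MvPolynomial.map (Int.castRingHom ℚ) Q) := ⟨_, rfl⟩
  rw [← hq] at hQirr hW
  have hq0 : q ≠ 0 := by
    rintro rfl
    have h1 := hQirr 1 one_ne_zero
    rw [mul_zero, C_0, sub_zero] at h1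
    exact not_irreducible_pow (by omega) h1
  have hQ0 : Q ≠ 0 := by
    rintro rfl
    apply hq0
    rw [hq, map_zero, map_zero]
  have hF0 : F ≠ 0 := by
    rintro rfl
    rw [map_zero] at hirr
    exact hirr.ne_zero rfl
  have hE1 : 1 ≤ len F * len Q := Nat.mul_pos (len_pos' hF0) (len_pos' hQ0)
  have hc1 : 1 ≤ c.natAbs := Nat.one_le_iff_ne_zero.2 (Int.natAbs_ne_zero.2 hc)
  -- the new polynomial
  obtain ⟨Q', hQ'⟩ : ∃ Q' : MvPolynomial (Fin 2) ℤ, Q' = MvPolynomial.C (c ^ (n - 1)) * Q :=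
    ⟨_, rfl⟩
  have hQ'd : Q'.totalDegree ≤ d := by
    rw [hQ']
    refine (MvPolynomial.totalDegree_mul _ _).trans ?_
    rw [MvPolynomial.totalDegree_C, zero_add]
    exact hQd
  have hQ'0 : Q' ≠ 0 := by
    rw [hQ']
    refine mul_ne_zero ?_ hQ0
    rw [Ne, MvPolynomial.C_eq_zero]
    exact pow_ne_zero _ hc
  have hQ'l : len Q' ≤ c.natAbs ^ (n - 1) * len Q := by
    rw [hQ']
    refine (len_C_mul _ _).trans (le_of_eq ?_)
    rw [Int.natAbs_pow]
  have hQ'q : π (MvPolynomial.map (Int.castRingHom ℚ) Q') = (c : L) ^ (n - 1) * q := by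
    rw [hQ', map_mul, map_mul, hq, MvPolynomial.map_C, ← MvPolynomial.algebraMap_eq, π.commutes]
    congr 1
    rw [eq_intCast, map_intCast, Int.cast_pow]
  have hQ'i : Irreducible (X ^ n - C (π (MvPolynomial.map (Int.castRingHom ℚ) Q')) : L[X]) := by
    rw [hQ'q]
    have := hQirr (c ^ (n - 1)) (pow_ne_zero _ hc)
    rwa [Int.cast_pow] at this
  have hQ'e : MvPolynomial.eval ![x, y] Q' = (c * z) ^ n := by
    rw [hQ', map_mul, MvPolynomial.eval_C, hQ, mul_pow, ← mul_assoc]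
    congr 1
    rw [← pow_succ]
    congr 1
    omega
  have hbd : ∀ (u m : ℕ), u ≤ C1 + cc ℚ⟮rt n c⟯ → m ≤ (u * (len F * len Q')) ^ C1 →
      m ≤ ((C1 + cc ℚ⟮rt n c⟯) * c.natAbs ^ (n - 1) * (len F * len Q)) ^ C1 := by
    intro u m hu hm
    refine hm.trans (Nat.pow_le_pow_left ?_ _)
    calc u * (len F * len Q') ≤ (C1 + cc ℚ⟮rt n c⟯) * (len F * (c.natAbs ^ (n - 1) * len Q)) :=
          Nat.mul_le_mul hu (Nat.mul_le_mul_left _ hQ'l)
      _ = (C1 + cc ℚ⟮rt n c⟯) * c.natAbs ^ (n - 1) * (len F * len Q) := by ring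
  let M := AlgebraicClosure L
  obtain ⟨zM, hzM⟩ : ∃ zM : M, zM ^ n = algebraMap L M ((c : L) ^ (n - 1) * q) :=
    IsAlgClosed.exists_pow_nat_eq _ (by omega)
  rcases hC1 F Q' hFD hQ'd hQ'0 hirr L π hker hsurj hQ'i M zM (by rw [hQ'q]; exact hzM) x y (c * z)
    hF hQ'e with h | ⟨a, K, A, ha, hLK, hzK, hgen, huniq, g, hg1, hg2, ⟨hres⟩, η, hη, hfin⟩
  · exact ⟨hbd C1 _ (by omega) h.1, hbd C1 _ (by omega) h.2⟩
  -- the residue field
  have hfact : Fact (Irreducible g) := ⟨hg2⟩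
  obtain ⟨f, hf⟩ : ∃ f : A →+* ℝ, f = ((AdjoinRoot.lift (algebraMap ℚ ℝ) η hη).comp
    (hres : IsLocalRing.ResidueField A →+* AdjoinRoot g)).comp (IsLocalRing.residue A) := ⟨_, rfl⟩
  have hf0 : ∀ s : A, f s = 0 ↔ A.valuation (s : K) < 1 := by
    intro s
    rw [hf, RingHom.comp_apply, map_eq_zero, IsLocalRing.residue_eq_zero_iff,
      ValuationSubring.valuation_lt_one_iff]
  rw [hQ'q] at hQ'i
  obtain ⟨r0, hr0, ⟨s0, hs0⟩, hdeg, hmem⟩ := res_main n (by omega) L M π q W c hc zM hQ'i hzM hW hrat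
    a K A ha hLK hzK hgen huniq f (fun s => (hf0 s).1) (fun s => (hf0 s).2)
  have hη1 : η ∈ ℚ⟮r0⟯ := by
    obtain ⟨s, hs⟩ := IsLocalRing.residue_surjective (hres.symm (AdjoinRoot.root g))
    have h1 := hmem s
    rw [hf, RingHom.comp_apply, hs, RingHom.comp_apply] at h1
    have h2 : (hres : IsLocalRing.ResidueField A →+* AdjoinRoot g) (hres.symm (AdjoinRoot.root g)) = AdjoinRoot.root g :=
      hres.apply_symm_apply _
    rw [h2, AdjoinRoot.lift_root] at h1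
    exact h1
  have hr1 : r0 ∈ ℚ⟮η⟯ := by
    rw [← hs0, hf, RingHom.comp_apply, RingHom.comp_apply]
    obtain ⟨p, hp⟩ := AdjoinRoot.mk_surjective
      ((hres : IsLocalRing.ResidueField A →+* AdjoinRoot g) (IsLocalRing.residue A s0))
    rw [← hp, AdjoinRoot.lift_mk, ← Polynomial.aeval_def]
    exact IntermediateField.algebra_adjoin_le_adjoin ℚ _ (aeval_mem_adjoin_singleton ℚ η)
  have hrη : ℚ⟮η⟯ = ℚ⟮r0⟯ := le_antisymm (IntermediateField.adjoin_simple_le_iff.2 hη1)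
    (IntermediateField.adjoin_simple_le_iff.2 hr1)
  have hrint : IsIntegral ℚ r0 := by
    refine ⟨X ^ n - C ((c : ℚ) ^ (n - 1)), monic_X_pow_sub_C _ (by omega), ?_⟩
    rw [eval₂_sub, eval₂_pow, eval₂_X, eval₂_C, hr0]
    simp
  have hηint : IsIntegral ℚ η := ⟨g, hg1, hη⟩
  have hgmin : g = minpoly ℚ η := minpoly.eq_of_irreducible_of_monic hg2 hη hg1
  have hgn : n ≤ g.natDegree := by
    rw [hgmin, ← IntermediateField.adjoin.finrank hηint, hrη,
      IntermediateField.adjoin.finrank hrint]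
    exact hdeg _ (minpoly.ne_zero hrint) (minpoly.aeval _ _)
  rcases hfin with h | h
  · omega
  · rw [hrη, adjoin_rt n (by omega) c r0 hr0] at h
    exact ⟨hbd _ _ (by omega) h.1, hbd _ _ (by omega) h.2⟩

/-- there is a place at infinity -/
lemma exists_inf (F : MvPolynomial (Fin 2) ℤ) (hF : 1 ≤ F.totalDegree)
    (hirr : Irreducible (MvPolynomial.map (Int.castRingHom ℚ) F))
    (L : Type) [Field L] [Algebra ℚ L] (π : MvPolynomial (Fin 2) ℚ →ₐ[ℚ] L)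
    (hker : ∀ w, π w = 0 ↔ MvPolynomial.map (Int.castRingHom ℚ) F ∣ w)
    (hsurj : ∀ z : L, ∃ w1 w2, π w2 ≠ 0 ∧ π w2 * z = π w1) :
    ∃ A : ValuationSubring L, (∀ r : ℚ, algebraMap ℚ L r ∈ A) ∧
      ¬ (π (MvPolynomial.X 0) ∈ A ∧ π (MvPolynomial.X 1) ∈ A) := by
  have hF0 : F ≠ 0 := by
    rintro rfl
    rw [map_zero] at hirr
    exact hirr.ne_zero rfl
  obtain ⟨u, hu, hcu⟩ := exists_u F hF0
  obtain ⟨hev, htr, hgen, hpl⟩ := Y852.FFRed.ff_reduce F hirr u hcu hF π hker hsurj _ _ rfl rfl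
  obtain ⟨V, hV, hV'⟩ := exists_V _ htr
  refine ⟨V, hV, ?_⟩
  rintro ⟨h0, h1⟩
  apply hV'
  refine sub_mem h1 (mul_mem ?_ h0)
  exact natCast_mem V u

/-- all the exponents: `p` is a prime factor of `n`, and `4 ∣ n` if `p = 2` -/
theorem tmain3 : ∃ (Cf : ℕ → ℕ → ℕ) (cf : ℕ → ℕ → ℕ → ℕ), ∀ d n p R : ℕ, n ≠ 0 → p.Prime → p ∣ n →
    (p = 2 → 4 ∣ n) → ∀ F Q : MvPolynomial (Fin 2) ℤ, F.totalDegree ≤ d → Q.totalDegree ≤ d →
    Irreducible (MvPolynomial.map (Int.castRingHom ℚ) F) →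
    ∀ (L : Type) [Field L] [Algebra ℚ L] (π : MvPolynomial (Fin 2) ℚ →ₐ[ℚ] L),
    (∀ w, π w = 0 ↔ MvPolynomial.map (Int.castRingHom ℚ) F ∣ w) →
    (∀ z : L, ∃ w1 w2, π w2 ≠ 0 ∧ π w2 * z = π w1) →
    ∀ W : L, (∀ w : L, w ^ p ≠ π (MvPolynomial.map (Int.castRingHom ℚ) Q)) →
    (∀ A : ValuationSubring L, (∀ r : ℚ, algebraMap ℚ L r ∈ A) →
      ¬ (π (MvPolynomial.X 0) ∈ A ∧ π (MvPolynomial.X 1) ∈ A) →
      A.valuation (π (MvPolynomial.map (Int.castRingHom ℚ) Q) / W ^ n - 1) < 1) →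
    (∀ A : ValuationSubring L, (∀ r : ℚ, algebraMap ℚ L r ∈ A) →
      ¬ (π (MvPolynomial.X 0) ∈ A ∧ π (MvPolynomial.X 1) ∈ A) →
      ∀ l ∈ A, ∃ r : ℚ, A.valuation (l - algebraMap ℚ L r) < 1) →
    ∀ x y z c : ℤ, c ≠ 0 → c.natAbs ≤ R → MvPolynomial.eval ![x, y] F = 0 →
      MvPolynomial.eval ![x, y] Q = c * z ^ n →
      (x.natAbs ≤ (cf d n R * (len F * len Q)) ^ Cf d n ∧
        y.natAbs ≤ (cf d n R * (len F * len Q)) ^ Cf d n) := by
  have h1 : ∀ d D n : ℕ, ∃ (Cc : ℕ) (cf : ℤ → ℕ), 1 ≤ D → 3 ≤ n → _ := fun d D n => by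
    by_cases h : 1 ≤ D ∧ 3 ≤ n
    · obtain ⟨Cc, cf, h2⟩ := tmain1 d D n h.1 h.2
      exact ⟨Cc, cf, fun _ _ => h2⟩
    · exact ⟨0, fun _ => 0, fun h3 h4 => absurd ⟨h3, h4⟩ h⟩
  choose C0 c0 h0 using h1
  refine ⟨fun d n => ∑ D ∈ Finset.range (d + 1), ∑ m ∈ Finset.range (n + 1), C0 d D m,
    fun d n R => (∑ D ∈ Finset.range (d + 1), ∑ m ∈ Finset.range (n + 1),
      ∑ c ∈ Finset.Icc (-(R : ℤ)) R, c0 d D m c) + 1, ?_⟩
  intro d n p R hn0 hp hpn hp2 F Q hFd hQd hirr L _ _ π hker hsurj W hQp hW hrat x y z c hc hcR hF hQ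
  have hD1 : 1 ≤ F.totalDegree := Pool.Agent.Y910.G.totalDegree_pos F hirr
  obtain ⟨m, hm⟩ : ∃ m, (p ≠ 2 ∧ m = p) ∨ (p = 2 ∧ m = 4) := by
    by_cases h : p = 2
    · exact ⟨4, Or.inr ⟨h, rfl⟩⟩
    · exact ⟨p, Or.inl ⟨h, rfl⟩⟩
  have hm3 : 3 ≤ m := by
    rcases hm with ⟨h, rfl⟩ | ⟨-, rfl⟩
    · have := hp.two_le
      omega
    · norm_num
  obtain ⟨j, hj⟩ : m ∣ n := by
    rcases hm with ⟨h, rfl⟩ | ⟨h, rfl⟩
    · exact hpn
    · exact hp2 h
  have hmn : m ≤ n := Nat.le_of_dvd (by omega) ⟨j, hj⟩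
  have hWj : ∀ A : ValuationSubring L, (∀ r : ℚ, algebraMap ℚ L r ∈ A) →
      ¬ (π (MvPolynomial.X 0) ∈ A ∧ π (MvPolynomial.X 1) ∈ A) →
      A.valuation (π (MvPolynomial.map (Int.castRingHom ℚ) Q) / (W ^ j) ^ m - 1) < 1 := by
    intro A hA1 hA2
    have := hW A hA1 hA2
    rwa [hj, mul_comm, pow_mul] at this
  obtain ⟨A0, hA0, hA0'⟩ := exists_inf F hD1 hirr L π hker hsurj
  have h2 := h0 d F.totalDegree m hD1 hm3 F Q rfl hQd hirr L π hker hsurj (W ^ j)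
    (fun c hc => irr_c A0 hA0 (hrat A0 hA0 hA0') _ (W ^ j) m p hp hm (hWj A0 hA0 hA0') hQp c hc)
    hWj hrat x y (z ^ j) c hc hF (by rw [hQ, hj, mul_comm m j, pow_mul])
  have hQ0 : Q ≠ 0 := by
    rintro rfl
    apply hQp 0
    rw [map_zero, map_zero, zero_pow hp.ne_zero]
  have hF0 : F ≠ 0 := by
    rintro rfl
    rw [map_zero] at hirr
    exact hirr.ne_zero rfl
  have hE1 : 1 ≤ len F * len Q := Nat.mul_pos (len_pos' hF0) (len_pos' hQ0)
  have hDm : F.totalDegree ∈ Finset.range (d + 1) := Finset.mem_range.2 (by omega)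
  have hmm : m ∈ Finset.range (n + 1) := Finset.mem_range.2 (by omega)
  have h3 : C0 d F.totalDegree m ≤ ∑ D ∈ Finset.range (d + 1), ∑ m ∈ Finset.range (n + 1),
      C0 d D m :=
    (Finset.single_le_sum (f := fun m => C0 d F.totalDegree m) (fun _ _ => Nat.zero_le _) hmm).trans
      (Finset.single_le_sum (f := fun D => ∑ m ∈ Finset.range (n + 1), C0 d D m)
        (fun _ _ => Nat.zero_le _) hDm)
  have h4 : c0 d F.totalDegree m c ≤ ∑ D ∈ Finset.range (d + 1), ∑ m ∈ Finset.range (n + 1),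
      ∑ c ∈ Finset.Icc (-(R : ℤ)) R, c0 d D m c := by
    have hcm : c ∈ Finset.Icc (-(R : ℤ)) R := by
      rw [Finset.mem_Icc]
      omega
    exact (Finset.single_le_sum (f := fun c => c0 d F.totalDegree m c) (fun _ _ => Nat.zero_le _)
      hcm).trans ((Finset.single_le_sum (f := fun m => ∑ c ∈ Finset.Icc (-(R : ℤ)) R,
        c0 d F.totalDegree m c) (fun _ _ => Nat.zero_le _) hmm).trans
      (Finset.single_le_sum (f := fun D => ∑ m ∈ Finset.range (n + 1),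
        ∑ c ∈ Finset.Icc (-(R : ℤ)) R, c0 d D m c) (fun _ _ => Nat.zero_le _) hDm))
  have key : ∀ k : ℕ, ∀ a a' b b' : ℕ, a ≤ a' → b ≤ b' → k ≤ (a * (len F * len Q)) ^ b →
      k ≤ ((a' + 1) * (len F * len Q)) ^ b' := by
    intro k a a' b b' ha hb hk
    refine hk.trans ((Nat.pow_le_pow_left (Nat.mul_le_mul_right _ (ha.trans (Nat.le_succ _))) _).trans
      (Nat.pow_le_pow_right (Nat.mul_pos (Nat.succ_pos _) hE1) hb))
  exact ⟨key _ _ _ _ _ h4 h3 h2.1, key _ _ _ _ _ h4 h3 h2.2⟩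

end Pool.Agent.V8H28.TC
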